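import Mathlib

/-!
General facts on the exterior algebra of a module and contractions.
-/

namespace Pool.Agent.H940V

open ExteriorAlgebra

variable {R : Type*} [CommRing R] {M : Type*} [AddCommGroup M] [Module R M]

/-- Contraction on the exterior algebra. -/
noncomputable abbrev ctr (θ : Module.Dual R M) : ExteriorAlgebra R M →ₗ[R] ExteriorAlgebra R M :=
  CliffordAlgebra.contractLeft (Q := (0 : QuadraticForm R M)) θ

lemma ctr_ι_mul (θ : Module.Dual R M) (a : M) (b : ExteriorAlgebra R M) :
    ctr θ (ι R a * b) = θ a • b - ι R a * ctr θ b :=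
  CliffordAlgebra.contractLeft_ι_mul θ a b

lemma ctr_one (θ : Module.Dual R M) : ctr θ (1 : ExteriorAlgebra R M) = 0 :=
  CliffordAlgebra.contractLeft_one (Q := (0 : QuadraticForm R M)) θ

/-- The Koszul formula for contraction of a product of vectors. -/
lemma ctr_ιMulti (θ : Module.Dual R M) : ∀ (m : ℕ) (v : Fin (m + 1) → M),
    ctr θ (ιMulti R (m + 1) v)
      = ∑ j : Fin (m + 1), ((-1 : R) ^ (j : ℕ) * θ (v j)) • ιMulti R m (fun i => v (j.succAbove i)) := by
  intro m
  induction m with
  | zero =>
    intro v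
    rw [ιMulti_succ_apply, ctr_ι_mul]
    simp
  | succ m ih =>
    intro v
    rw [ιMulti_succ_apply, ctr_ι_mul, ih, Finset.mul_sum]
    conv_rhs => rw [Fin.sum_univ_succ]
    rw [sub_eq_add_neg, ← Finset.sum_neg_distrib]
    congr 1
    · simp only [Fin.val_zero, pow_zero, one_mul]
      rfl
    · apply Finset.sum_congr rfl
      intro j _
      rw [ιMulti_succ_apply (fun i => v (j.succ.succAbove i))]
      have h1 : v (j.succ.succAbove 0) = v 0 := by
        rw [Fin.succ_succAbove_zero]
      have h2 : (Matrix.vecTail fun i => v (j.succ.succAbove i))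
          = fun i => Matrix.vecTail v (j.succAbove i) := by
        funext i
        simp only [Matrix.vecTail, Function.comp]
        rw [Fin.succ_succAbove_succ]
      rw [h1, h2]
      have h3 : Matrix.vecTail v j = v j.succ := rfl
      rw [h3, Fin.val_succ, pow_succ]
      rw [mul_smul_comm, ← neg_smul]
      congr 1
      ring

/-- If `y` is a cycle then the contraction of `x * y` is `ctr x * y`. -/
lemma ctr_mul_cycle (θ : Module.Dual R M) (y : ExteriorAlgebra R M) (hy : ctr θ y = 0)
    (x : ExteriorAlgebra R M) : ctr θ (x * y) = ctr θ x * y := by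
  induction x using CliffordAlgebra.left_induction with
  | algebraMap r =>
    rw [CliffordAlgebra.contractLeft_algebraMap_mul, hy, mul_zero,
      CliffordAlgebra.contractLeft_algebraMap, zero_mul]
  | add a b ha hb => rw [add_mul, map_add, map_add, add_mul, ha, hb]
  | ι_mul a m ha =>
    rw [mul_assoc, ctr_ι_mul, ctr_ι_mul, ha, sub_mul, smul_mul_assoc, mul_assoc]

/-- The product of the vectors `g a`, `a ∈ l`. -/
noncomputable def mw {α : Type*} (g : α → M) (l : List α) : ExteriorAlgebra R M :=
  (l.map (fun a => ι R (g a))).prod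

lemma mw_nil {α : Type*} (g : α → M) : mw (R := R) g [] = 1 := rfl

lemma mw_cons {α : Type*} (g : α → M) (a : α) (l : List α) :
    mw (R := R) g (a :: l) = ι R (g a) * mw g l := by
  simp [mw]

lemma mw_append {α : Type*} (g : α → M) (l l' : List α) :
    mw (R := R) g (l ++ l') = mw g l * mw g l' := by
  simp [mw]

lemma ctr_mw_zero {α : Type*} (θ : Module.Dual R M) (g : α → M) (l : List α)
    (h : ∀ a ∈ l, θ (g a) = 0) : ctr θ (mw g l) = 0 := by
  induction l with
  | nil => rw [mw_nil, ctr_one]
  | cons a l ih =>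
    rw [mw_cons, ctr_ι_mul, h a (by simp), zero_smul, ih (fun b hb => h b (by simp [hb])), mul_zero,
      sub_zero]

/-- The basic local cycle: if `θ (g a) = s * θ' (g a)` for `a ∈ l` and `θ e = s * c` then
`c • g_l - e * θ'(g_l)` is a cycle. -/
lemma local_cycle {α : Type*} (θ θ' : Module.Dual R M) (g : α → M) (l : List α) (e : M) (s c : R)
    (h : ∀ a ∈ l, θ (g a) = s * θ' (g a)) (he : θ e = s * c) :
    ctr θ (c • mw g l - ι R e * ctr θ' (mw g l)) = 0 := by
  have h1 : ctr θ (mw g l) = s • ctr θ' (mw g l) := by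
    have h2 : ctr (θ - s • θ') (mw g l) = 0 := by
      apply ctr_mw_zero
      intro a ha
      rw [LinearMap.sub_apply, LinearMap.smul_apply, h a ha, smul_eq_mul, sub_self]
    have h3 : ctr (θ - s • θ') (mw g l) = ctr θ (mw g l) - s • ctr θ' (mw g l) := by
      simp only [ctr, map_sub, map_smul, LinearMap.sub_apply, LinearMap.smul_apply]
    rw [h3] at h2
    exact sub_eq_zero.1 h2
  have h4 : ctr θ (ctr θ' (mw g l)) = 0 := by
    have h5 : ctr θ (ctr θ' (mw g l)) = - ctr θ' (ctr θ (mw g l)) :=
      CliffordAlgebra.contractLeft_comm _ _ _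
    rw [h5, h1, map_smul]
    have h6 : ctr θ' (ctr θ' (mw g l)) = 0 := CliffordAlgebra.contractLeft_contractLeft _ _
    rw [h6, smul_zero, neg_zero]
  rw [map_sub, map_smul, ctr_ι_mul, h4, mul_zero, sub_zero, he, h1, smul_smul, mul_comm c s, sub_self]

/-- A product of cycles is a cycle. -/
lemma prod_cycle {α : Type*} (θ : Module.Dual R M) (w : α → ExteriorAlgebra R M) (l : List α)
    (h : ∀ a ∈ l, ctr θ (w a) = 0) : ctr θ ((l.map w).prod) = 0 := by
  induction l with
  | nil => simp only [List.map_nil, List.prod_nil]; exact ctr_one θ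
  | cons a l ih =>
    rw [List.map_cons, List.prod_cons, ctr_mul_cycle θ _ (ih (fun b hb => h b (by simp [hb]))),
      h a (by simp), zero_mul]

/-- The top coordinate on the exterior algebra of `R^m`. -/
noncomputable def top (R : Type*) [CommRing R] (m : ℕ) : ExteriorAlgebra R (Fin m → R) →ₗ[R] R :=
  ExteriorAlgebra.liftAlternating
    (Pi.single (M := fun i => (Fin m → R) [⋀^Fin i]→ₗ[R] R) m Matrix.detRowAlternating)

lemma top_ιMulti (m : ℕ) (v : Fin m → Fin m → R) :
    top R m (ιMulti R m v) = Matrix.det (Matrix.of v) := by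
  rw [top, liftAlternating_apply_ιMulti, Pi.single_eq_same]
  rfl

end Pool.Agent.H940V
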