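import Pool.Agent.H940V.Main

/-!
Sanity checks: the Koszul formula, and boundaries are cycles.
-/

namespace Pool.Agent.H940V

open MvPolynomial TensorProduct ExteriorAlgebra

variable {k : Type*} [Field k] {n : ℕ}

lemma mulMap_tmul {d : ℕ} (s : Form k n (d : ℤ)) :
    mulMap k n d (1 ⊗ₜ[k] s) = (s : MvPolynomial (Fin (n + 1)) k) := by
  simp [mulMap]

/-- The classical formula for the Koszul differential. -/
lemma koszul_formula {d p : ℕ} (f : Ring k n) (s : Fin (p + 1) → Form k n (d : ℤ)) :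
    koszul k n d (f • ιMulti (Ring k n) (p + 1) (fun i => (1 ⊗ₜ[k] s i : Mod k n d)))
      = ∑ j : Fin (p + 1), ((-1 : Ring k n) ^ (j : ℕ) * ((s j : MvPolynomial (Fin (n + 1)) k) * f)) •
        ιMulti (Ring k n) p (fun i => (1 ⊗ₜ[k] s (j.succAbove i) : Mod k n d)) := by
  change ctr (mulMap k n d) _ = _
  rw [map_smul, ctr_ιMulti, Finset.smul_sum]
  apply Finset.sum_congr rfl
  intro j _
  rw [smul_smul, mulMap_tmul]
  congr 1
  ring

lemma koszul_koszul {d : ℕ} (x : Ext k n d) : koszul k n d (koszul k n d x) = 0 :=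
  CliffordAlgebra.contractLeft_contractLeft _ _

lemma koszul_chain {d p : ℕ} {e : ℤ} {x : Ext k n d} (hx : x ∈ chain k n d (p + 1) e) :
    koszul k n d x ∈ chain k n d p (e + d) := by
  refine Submodule.span_induction (p := fun x _ => koszul k n d x ∈ chain k n d p (e + d))
    ?_ ?_ ?_ ?_ hx
  · rintro _ ⟨f, hf, s, rfl⟩
    rw [koszul_formula]
    refine Submodule.sum_mem _ fun j _ => ?_
    refine Submodule.subset_span ⟨_, ?_, fun i => s (j.succAbove i), rfl⟩
    have h1 : (s j : MvPolynomial (Fin (n + 1)) k) * f ∈ Form k n (e + d) := by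
      have h := Form_mul (s j).2 hf
      rwa [add_comm (d : ℤ) e] at h
    rcases neg_one_pow_eq_or (Ring k n) (j : ℕ) with h | h
    · rw [h, one_mul]; exact h1
    · rw [h, neg_one_mul]; exact Submodule.neg_mem _ h1
  · rw [map_zero]; exact Submodule.zero_mem _
  · intro x y _ _ hx hy
    rw [map_add]; exact Submodule.add_mem _ hx hy
  · intro a x _ hx
    rw [map_smul]; exact Submodule.smul_mem _ a hx

/-- Boundaries are cycles. -/
theorem bdy_le_cyc (k : Type*) [Field k] (n b d p q : ℕ) :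
    bdy k n b d p q ≤ cyc k n b d p q := by
  rintro _ ⟨x, hx, rfl⟩
  refine ⟨?_, ?_⟩
  · have h := koszul_chain hx
    have h2 : (((q : ℤ) - 1) * d + b) + d = (q : ℤ) * d + b := by ring
    rwa [h2] at h
  · rw [SetLike.mem_coe, LinearMap.mem_ker]
    exact koszul_koszul x

end Pool.Agent.H940V
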