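import Pool.Agent.H940V.Elem
import Pool.Agent.H940V.Sanity

/-!
From the exterior algebra to alternating functions on tuples of monomials.
-/

namespace Pool.Agent.H940V.El

open MvPolynomial TensorProduct ExteriorAlgebra

variable (k : Type*) [Field k] {n : ℕ}

/-- projection to the coordinates in a tuple -/
noncomputable def PrT {d m : ℕ} (v : Fin m → Mon n d) :
    Mod k n d →ₗ[Ring k n] (Fin m → Ring k n) :=
  LinearMap.pi (fun i => (coefL k (v i)).liftBaseChange (Ring k n))

lemma PrT_apply {d m : ℕ} (v : Fin m → Mon n d) (s : Form k n (d : ℤ)) (i : Fin m) :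
    PrT k v (1 ⊗ₜ s) i = C (coeff (v i).1 (s : Ring k n)) := by
  rw [PrT, LinearMap.pi_apply, LinearMap.liftBaseChange_tmul, one_smul, coefL_apply]

/-- The coordinate functional. -/
noncomputable def FT {d m : ℕ} (v : Fin m → Mon n d) : Ext k n d →ₗ[Ring k n] Ring k n :=
  (top (Ring k n) m) ∘ₗ (ExteriorAlgebra.map (PrT k v)).toLinearMap

lemma FT_apply {d m : ℕ} (v : Fin m → Mon n d) (x : Ext k n d) :
    FT k v x = top (Ring k n) m (ExteriorAlgebra.map (PrT k v) x) := rfl

lemma FT_get {d : ℕ} (L : List (Mon n d)) : FT k L.get = FL k L := rfl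

lemma FT_ιMulti {d p : ℕ} (v : Fin p → Mon n d) (s : Fin p → Form k n (d : ℤ)) :
    FT k v (ιMulti (Ring k n) p (fun i => (1 ⊗ₜ[k] s i : Mod k n d)))
      = C (Matrix.det (Matrix.of fun i a => coeff (v a).1 (s i : Ring k n))) := by
  rw [FT_apply, map_apply_ιMulti, top_ιMulti, RingHom.map_det (C : k →+* Ring k n)]
  congr 1
  ext i a : 2
  rw [Matrix.of_apply, Function.comp_apply, PrT_apply]
  rfl

lemma FT_ιMulti_ne {d m p : ℕ} (h : m ≠ p) (v : Fin m → Mon n d)
    (s : Fin p → Form k n (d : ℤ)) :
    FT k v (ιMulti (Ring k n) p (fun i => (1 ⊗ₜ[k] s i : Mod k n d))) = 0 := by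
  rw [FT_apply, map_apply_ιMulti, top, liftAlternating_apply_ιMulti,
    Pi.single_eq_of_ne (Ne.symm h)]
  rfl

/-- The coordinate map. -/
noncomputable def T (d : ℕ) : Ext k n d →ₗ[k] Fam k n d where
  toFun x m v := FT k v x
  map_add' x y := by
    funext m v
    exact map_add (FT k v) x y
  map_smul' a x := by
    funext m v
    exact ((FT k v).restrictScalars k).map_smul a x

lemma T_apply {d m : ℕ} (x : Ext k n d) (v : Fin m → Mon n d) : T k d x m v = FT k v x := rfl

lemma T_chain {d p : ℕ} {e : ℤ} {x : Ext k n d} (hx : x ∈ H940V.chain k n d p e) :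
    T k d x ∈ chain k n d p e := by
  have h : H940V.chain k n d p e ≤ (chain k n d p e).comap (T k d) := by
    apply Submodule.span_le.2
    rintro _ ⟨f, hf, s, rfl⟩
    refine ⟨?_, ?_, ?_, ?_⟩
    · intro m hm
      funext v
      rw [T_apply, map_smul, FT_ιMulti_ne k hm, smul_zero]
      rfl
    · intro m v
      rw [T_apply, map_smul]
      by_cases hm : m = p
      · subst hm
        rw [FT_ιMulti, smul_eq_mul, mul_comm, ← MvPolynomial.smul_eq_C_mul]
        exact Submodule.smul_mem _ _ hf
      · rw [FT_ιMulti_ne k hm, smul_zero]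
        exact Submodule.zero_mem _
    · intro m v hv
      rw [T_apply, map_smul]
      by_cases hm : m = p
      · subst hm
        rw [FT_ιMulti]
        obtain ⟨i, j, hij, hne⟩ : ∃ i j, v i = v j ∧ i ≠ j := by
          by_contra hc
          push Not at hc
          exact hv hc
        rw [Matrix.det_zero_of_column_eq hne (fun a => by
          rw [Matrix.of_apply, Matrix.of_apply, hij]), C_0, smul_zero]
      · rw [FT_ιMulti_ne k hm, smul_zero]
    · intro m v i j hij
      rw [T_apply, T_apply, map_smul, map_smul]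
      by_cases hm : m = p
      · subst hm
        rw [FT_ιMulti, FT_ιMulti]
        have h1 := Matrix.det_permute' (Equiv.swap i j)
          (Matrix.of fun i a => coeff (v a).1 (s i : Ring k n))
        rw [Equiv.Perm.sign_swap hij] at h1
        have h2 : (Matrix.of fun i_1 a => coeff ((v ∘ Equiv.swap i j) a).1 (s i_1 : Ring k n))
          = (Matrix.of fun i a => coeff (v a).1 (s i : Ring k n)).submatrix id (Equiv.swap i j) := rfl
        rw [h2, h1]
        simp
      · rw [FT_ιMulti_ne k hm, FT_ιMulti_ne k hm, smul_zero, neg_zero]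
  exact h hx

lemma form_expand {d : ℕ} (s : Form k n (d : ℤ)) :
    (s : Ring k n) = ∑ u : Mon n d, monomial u.1 1 * C (coeff u.1 (s : Ring k n)) := by
  classical
  apply MvPolynomial.ext
  intro w
  rw [coeff_sum]
  have h1 : ∀ u : Mon n d, coeff w (monomial u.1 1 * C (coeff u.1 (s : Ring k n)))
      = if u.1 = w then coeff u.1 (s : Ring k n) else 0 := by
    intro u
    rw [mul_comm, C_mul_monomial, mul_one, coeff_monomial]
  rw [Finset.sum_congr rfl (fun u _ => h1 u)]
  by_cases hw : ∑ i, w i = d
  · rw [Finset.sum_eq_single (⟨w, hw⟩ : Mon n d)]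
    · rw [if_pos rfl]
    · intro u _ hu
      rw [if_neg (fun h => hu (Subtype.ext h))]
    · intro h; exact absurd (Finset.mem_univ _) h
  · rw [Finset.sum_eq_zero]
    · by_contra hc
      have h2 := s.2 w hc
      exact hw (by exact_mod_cast h2)
    · intro u _
      rw [if_neg]
      intro h
      exact hw (by rw [← h]; exact u.2)

lemma T_koszul {d p : ℕ} {e : ℤ} {x : Ext k n d} (hx : x ∈ H940V.chain k n d p e) :
    T k d (H940V.koszul k n d x) = koszul k n d (T k d x) := by
  have h : H940V.chain k n d p e ≤ LinearMap.eqLocus ((T k d) ∘ₗ (H940V.koszul k n d))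
      ((koszul k n d) ∘ₗ (T k d)) := by
    apply Submodule.span_le.2
    rintro _ ⟨f, hf, s, rfl⟩
    change T k d (H940V.koszul k n d _) = koszul k n d (T k d _)
    funext m v
    change FT k v _ = ∑ u : Mon n d, monomial u.1 1 * FT k (Fin.cons u v : Fin (m + 1) → Mon n d) _
    cases p with
    | zero =>
      rw [Finset.sum_eq_zero]
      · rw [ιMulti_zero_apply, koszul_apply, map_smul, ctr_one, smul_zero, map_zero]
      · intro u _
        rw [map_smul, FT_ιMulti_ne k (by omega), smul_zero, mul_zero]
    | succ p =>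
      rw [koszul_formula, map_sum]
      by_cases hm : m = p
      · subst hm
        have h1 : ∀ u : Mon n d, monomial u.1 1 * FT k (Fin.cons u v : Fin (m + 1) → Mon n d)
            (f • ιMulti (Ring k n) (m + 1) (fun i => (1 ⊗ₜ[k] s i : Mod k n d)))
            = ∑ j : Fin (m + 1), (monomial u.1 1 * C (coeff u.1 (s j : Ring k n))) *
              ((-1 : Ring k n) ^ (j : ℕ) * f *
              C (Matrix.det (Matrix.of fun i a => coeff (v a).1 (s (j.succAbove i) : Ring k n)))) := by
          intro u
          rw [map_smul, FT_ιMulti, Matrix.det_succ_column_zero, map_sum, smul_eq_mul,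
            Finset.mul_sum, Finset.mul_sum]
          apply Finset.sum_congr rfl
          intro j _
          have h2 : (Matrix.of fun (i : Fin (m + 1)) (a : Fin (m + 1)) =>
              coeff ((Fin.cons u v : Fin (m + 1) → Mon n d) a).1 (s i : Ring k n)).submatrix
                j.succAbove Fin.succ
              = Matrix.of fun i a => coeff (v a).1 (s (j.succAbove i) : Ring k n) := by
            ext i a
            rfl
          rw [h2, Matrix.of_apply, Fin.cons_zero, C_mul, C_mul, C_pow, C_neg, C_1]
          ring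
        rw [Finset.sum_congr rfl (fun u _ => h1 u), Finset.sum_comm]
        apply Finset.sum_congr rfl
        intro j _
        rw [← Finset.sum_mul, ← form_expand k (s j), map_smul, FT_ιMulti, smul_eq_mul]
        ring
      · rw [Finset.sum_eq_zero, Finset.sum_eq_zero]
        · intro u _
          rw [map_smul, FT_ιMulti_ne k (by omega), smul_zero, mul_zero]
        · intro j _
          rw [map_smul, FT_ιMulti_ne k hm, smul_zero]
  exact h hx

end Pool.Agent.H940V.El
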