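import Pool.Agent.H940V.Defs

/-!
Degree bookkeeping in the Koszul complex.
-/

namespace Pool.Agent.H940V

open MvPolynomial TensorProduct ExteriorAlgebra

variable {k : Type*} [Field k] {n : ℕ}

lemma mem_Form {e : ℤ} {f : MvPolynomial (Fin (n + 1)) k} :
    f ∈ Form k n e ↔ ∀ u : Fin (n + 1) →₀ ℕ, coeff u f ≠ 0 → ∑ i, (u i : ℤ) = e := Iff.rfl

lemma Form_mul {e e' : ℤ} {f g : MvPolynomial (Fin (n + 1)) k} (hf : f ∈ Form k n e)
    (hg : g ∈ Form k n e') : f * g ∈ Form k n (e + e') := by
  classical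
  intro u hu
  rw [coeff_mul] at hu
  obtain ⟨x, hx, hne⟩ := Finset.exists_ne_zero_of_sum_ne_zero hu
  rw [Finset.HasAntidiagonal.mem_antidiagonal] at hx
  have h1 := hf x.1 (left_ne_zero_of_mul hne)
  have h2 := hg x.2 (right_ne_zero_of_mul hne)
  rw [← h1, ← h2, ← hx, ← Finset.sum_add_distrib]
  simp

lemma Form_monomial (u : Fin (n + 1) →₀ ℕ) (c : k) : monomial u c ∈ Form k n (∑ i, (u i : ℤ)) := by
  classical
  intro v hv
  rw [coeff_monomial] at hv
  have : u = v := by
    by_contra h
    rw [if_neg h] at hv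
    exact hv rfl
  rw [this]

lemma Form_one : (1 : MvPolynomial (Fin (n + 1)) k) ∈ Form k n 0 := by
  have := Form_monomial (k := k) (n := n) 0 1
  simpa using this

lemma smul_chain {d p : ℕ} {e e' : ℤ} {f : Ring k n} (hf : f ∈ Form k n e') {x : Ext k n d}
    (hx : x ∈ chain k n d p e) : f • x ∈ chain k n d p (e + e') := by
  refine Submodule.span_induction (p := fun x _ => f • x ∈ chain k n d p (e + e')) ?_ ?_ ?_ ?_ hx
  · rintro _ ⟨g, hg, s, rfl⟩
    refine Submodule.subset_span ⟨f * g, ?_, s, ?_⟩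
    · rw [add_comm e e']; exact Form_mul hf hg
    · rw [smul_smul]
  · rw [smul_zero]; exact Submodule.zero_mem _
  · intro x y _ _ hx hy
    rw [smul_add]; exact Submodule.add_mem _ hx hy
  · intro a x _ hx
    rw [smul_comm]; exact Submodule.smul_mem _ a hx

lemma chain_mul {d p p' : ℕ} {e e' : ℤ} {x y : Ext k n d} (hx : x ∈ chain k n d p e)
    (hy : y ∈ chain k n d p' e') : x * y ∈ chain k n d (p + p') (e + e') := by
  refine Submodule.span_induction (p := fun x _ => x * y ∈ chain k n d (p + p') (e + e'))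
    ?_ ?_ ?_ ?_ hx
  · rintro _ ⟨f, hf, s, rfl⟩
    refine Submodule.span_induction
      (p := fun y _ => (f • ιMulti (Ring k n) p (fun i => (1 ⊗ₜ[k] s i : Mod k n d))) * y
        ∈ chain k n d (p + p') (e + e')) ?_ ?_ ?_ ?_ hy
    · rintro _ ⟨g, hg, t, rfl⟩
      refine Submodule.subset_span ⟨f * g, Form_mul hf hg, Fin.append s t, ?_⟩
      rw [smul_mul_smul_comm, ιMulti_mul_ιMulti]
      congr 2
      funext i
      refine Fin.addCases ?_ ?_ i
      · intro i; simp
      · intro i; simp
    · rw [mul_zero]; exact Submodule.zero_mem _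
    · intro x y _ _ hx hy
      rw [mul_add]; exact Submodule.add_mem _ hx hy
    · intro a x _ hx
      rw [mul_smul_comm]; exact Submodule.smul_mem _ a hx
  · rw [zero_mul]; exact Submodule.zero_mem _
  · intro x y _ _ hx hy
    rw [add_mul]; exact Submodule.add_mem _ hx hy
  · intro a x _ hx
    rw [smul_mul_assoc]; exact Submodule.smul_mem _ a hx

lemma one_chain {d : ℕ} : (1 : Ext k n d) ∈ chain k n d 0 0 := by
  refine Submodule.subset_span ⟨1, Form_one, fun i => 0, ?_⟩
  rw [ιMulti_zero_apply, one_smul]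

lemma ι_chain {d : ℕ} (s : Form k n (d : ℤ)) :
    ι (Ring k n) (1 ⊗ₜ[k] s : Mod k n d) ∈ chain k n d 1 0 := by
  refine Submodule.subset_span ⟨1, Form_one, fun _ => s, ?_⟩
  rw [one_smul, ιMulti_succ_apply, ιMulti_zero_apply, mul_one]

lemma mw_chain {d : ℕ} {α : Type*} (g : α → Form k n (d : ℤ)) (l : List α) :
    mw (R := Ring k n) (fun a => (1 ⊗ₜ[k] g a : Mod k n d)) l ∈ chain k n d l.length 0 := by
  induction l with
  | nil => rw [mw_nil]; exact one_chain
  | cons a l ih =>
    rw [mw_cons, List.length_cons]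
    have := chain_mul (ι_chain (g a)) ih
    rwa [add_zero, add_comm 1] at this

/-- contraction with a functional of degree `r`. -/
lemma ctr_chain {d : ℕ} {α : Type*} (g : α → Form k n (d : ℤ)) (θ : Module.Dual (Ring k n) (Mod k n d))
    (r : ℤ) (hθ : ∀ s : Form k n (d : ℤ), θ (1 ⊗ₜ s) ∈ Form k n r) (l : List α) :
    ctr θ (mw (R := Ring k n) (fun a => (1 ⊗ₜ[k] g a : Mod k n d)) l)
      ∈ chain k n d (l.length - 1) r := by
  induction l with
  | nil => rw [mw_nil, ctr_one]; exact Submodule.zero_mem _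
  | cons a l ih =>
    rw [mw_cons, ctr_ι_mul]
    refine Submodule.sub_mem _ ?_ ?_
    · have := smul_chain (hθ (g a)) (mw_chain g l)
      rw [zero_add] at this
      simpa using this
    · cases l with
      | nil => rw [mw_nil, ctr_one, mul_zero]; exact Submodule.zero_mem _
      | cons b l =>
        have := chain_mul (ι_chain (g a)) ih
        rw [zero_add] at this
        have h2 : 1 + ((b :: l).length - 1) = (a :: b :: l).length - 1 := by
          simp [add_comm]
        rwa [h2] at this

lemma prod_chain {d : ℕ} {α : Type*} (w : α → Ext k n d) (P : α → ℕ) (e : α → ℤ) (l : List α)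
    (h : ∀ a ∈ l, w a ∈ chain k n d (P a) (e a)) :
    (l.map w).prod ∈ chain k n d (l.map P).sum (l.map e).sum := by
  induction l with
  | nil => simpa using one_chain
  | cons a l ih =>
    simp only [List.map_cons, List.prod_cons, List.sum_cons]
    exact chain_mul (h a (by simp)) (ih (fun b hb => h b (by simp [hb])))

end Pool.Agent.H940V
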