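import Pool.Agent.H940V.Cycle

/-!
Counting monomials.
-/

namespace Pool.Agent.H940V

open Finset

variable {n : ℕ}

/-- monomials of degree `m` supported on `s` -/
noncomputable abbrev AD (s : Finset (Fin (n + 1))) (m : ℕ) : Finset (Fin (n + 1) →₀ ℕ) :=
  s.finsuppAntidiag m

lemma mem_AD {s : Finset (Fin (n + 1))} {m : ℕ} {u : Fin (n + 1) →₀ ℕ} :
    u ∈ AD s m ↔ ∑ i ∈ s, u i = m ∧ ∀ i, i ∉ s → u i = 0 := by
  rw [mem_finsuppAntidiag]
  constructor
  · rintro ⟨h1, h2⟩
    refine ⟨h1, fun i hi => ?_⟩
    by_contra h
    exact hi (h2 (Finsupp.mem_support_iff.2 h))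
  · rintro ⟨h1, h2⟩
    refine ⟨h1, fun i hi => ?_⟩
    by_contra h
    exact (Finsupp.mem_support_iff.1 hi) (h2 i h)

lemma sum_univ_of_AD {s : Finset (Fin (n + 1))} {u : Fin (n + 1) →₀ ℕ} (h : ∀ i, i ∉ s → u i = 0) :
    ∑ i, u i = ∑ i ∈ s, u i := by
  symm
  apply Finset.sum_subset (Finset.subset_univ s)
  intro i _ hi
  exact h i hi

lemma card_AD (s : Finset (Fin (n + 1))) (m c : ℕ) (hs : s.card = c + 1) :
    (AD s m).card = (c + m).choose c := by
  rw [card_finsuppAntidiag_nat_eq_choose, hs]
  have : c + 1 + m - 1 = c + m := by omega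
  rw [this, Nat.choose_symm_add]

lemma card_AD_ge (s : Finset (Fin (n + 1))) (m r : ℕ) (j : Fin (n + 1)) (hj : j ∈ s) (hr : r ≤ m) :
    ((AD s m).filter (fun u => r ≤ u j)).card = (AD s (m - r)).card := by
  classical
  suffices key : (AD s m).filter (fun u => r ≤ u j)
      = (AD s (m - r)).map (addRightEmbedding (Finsupp.single j r)) by
    rw [key, Finset.card_map]
  ext u
  rw [Finset.mem_filter, Finset.mem_map]
  constructor
  · rintro ⟨h1, h2⟩
    refine ⟨u - Finsupp.single j r, ?_, ?_⟩
    · rw [mem_AD] at h1 ⊢
      have h3 : ∑ i ∈ s, (u i - (Finsupp.single j r) i) + ∑ i ∈ s, (Finsupp.single j r) i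
          = ∑ i ∈ s, u i := by
        rw [← Finset.sum_add_distrib]
        apply Finset.sum_congr rfl
        intro i _
        apply Nat.sub_add_cancel
        rw [Finsupp.single_apply]
        split_ifs with h
        · rw [← h]; exact h2
        · exact Nat.zero_le _
      have h4 : ∑ i ∈ s, (Finsupp.single j r) i = r := by
        rw [Finset.sum_eq_single j]
        · simp
        · intro i _ hi
          rw [Finsupp.single_apply, if_neg (Ne.symm hi)]
        · intro h; exact absurd hj h
      refine ⟨?_, ?_⟩
      · simp only [Finsupp.tsub_apply]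
        omega
      · intro i hi
        rw [Finsupp.tsub_apply, h1.2 i hi, Nat.zero_sub]
    · change u - Finsupp.single j r + Finsupp.single j r = u
      apply tsub_add_cancel_of_le
      rw [Finsupp.single_le_iff]
      exact h2
  · rintro ⟨v, hv, rfl⟩
    rw [mem_AD] at hv
    change v + Finsupp.single j r ∈ AD s m ∧ r ≤ (v + Finsupp.single j r) j
    rw [mem_AD]
    refine ⟨⟨?_, ?_⟩, ?_⟩
    · simp only [Finsupp.add_apply]
      rw [Finset.sum_add_distrib, hv.1, Finset.sum_eq_single j]
      · simp; omega
      · intro i _ hi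
        rw [Finsupp.single_apply, if_neg (Ne.symm hi)]
      · intro h; exact absurd hj h
    · intro i hi
      rw [Finsupp.add_apply, hv.2 i hi, Finsupp.single_apply, if_neg (by rintro rfl; exact hi hj),
        add_zero]
    · simp

/-- a monomial of degree `d` whose exponent at `i` is at least `d` is the pure power. -/
lemma eq_single {d : ℕ} {u : Fin (n + 1) →₀ ℕ} (hu : ∑ i, u i = d) (i : Fin (n + 1)) (h : d ≤ u i) :
    u = Finsupp.single i d := by
  classical
  have h1 : ∑ j, u j = u i + ∑ j ∈ univ.erase i, u j := by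
    rw [Finset.add_sum_erase _ _ (Finset.mem_univ i)]
  have h2 : ∑ j ∈ univ.erase i, u j = 0 := by omega
  have h3 : u i = d := by omega
  ext j
  rw [Finsupp.single_apply]
  split_ifs with hj
  · rw [← hj]; exact h3
  · exact (Finset.sum_eq_zero_iff.1 h2) j (Finset.mem_erase.2 ⟨Ne.symm hj, Finset.mem_univ j⟩)

/-- The exponent of the monomial `f = (x_0 ⋯ x_{q-1})^{d-1} x_q^{q+b}`. -/
noncomputable def f0 (n b d q : ℕ) : Fin (n + 1) →₀ ℕ :=
  Finsupp.equivFunOnFinite.symm
    (fun i => if i.val < q then d - 1 else if i.val = q then q + b else 0)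

lemma f0_apply (b d q : ℕ) (i : Fin (n + 1)) :
    f0 n b d q i = if i.val < q then d - 1 else if i.val = q then q + b else 0 := rfl

lemma f0_lt {b d q : ℕ} (hd : b + q + 1 ≤ d) (i : Fin (n + 1)) : f0 n b d q i < d := by
  rw [f0_apply]
  split_ifs <;> omega

/-- index set `{0,…,q}` -/
def lo (n q : ℕ) : Finset (Fin (n + 1)) := univ.filter (fun i => i.val ≤ q)

/-- index set `{q,…,n}` -/
def hi (n q : ℕ) : Finset (Fin (n + 1)) := univ.filter (fun i => q ≤ i.val)

lemma card_lt (m : ℕ) (hm : m ≤ n + 1) : ((univ : Finset (Fin (n + 1))).filter (fun i => i.val < m)).card = m := by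
  rw [Fin.card_filter_val_lt]
  omega

lemma card_lo {q : ℕ} (hq : q ≤ n) : (lo n q).card = q + 1 := by
  have h : lo n q = (univ : Finset (Fin (n + 1))).filter (fun i => i.val < q + 1) := by
    ext i; simp [lo]
  rw [h, card_lt (q + 1) (by omega)]

lemma card_hi {q : ℕ} (hq : q ≤ n) : (hi n q).card = (n - q) + 1 := by
  have h1 : ((univ : Finset (Fin (n + 1))).filter (fun i => i.val < q)).card
      + ((univ : Finset (Fin (n + 1))).filter (fun i => ¬ i.val < q)).card = n + 1 := by
    rw [Finset.card_filter_add_card_filter_not]; simp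
  rw [card_lt q (by omega)] at h1
  have h2 : hi n q = (univ : Finset (Fin (n + 1))).filter (fun i => ¬ i.val < q) := by
    ext i; simp [hi]
  rw [h2]; omega

lemma sum_f0 {b d q : ℕ} (hq : q ≤ n) (hd : b + q + 1 ≤ d) : ∑ i, f0 n b d q i = q * d + b := by
  classical
  have h1 : ∀ i : Fin (n + 1), f0 n b d q i
      = (if i.val < q then d - 1 else 0) + (if i = (⟨q, by omega⟩ : Fin (n + 1)) then q + b else 0) := by
    intro i
    rw [f0_apply]
    have : (i = (⟨q, by omega⟩ : Fin (n + 1))) ↔ i.val = q := by
      rw [Fin.ext_iff]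
    simp only [this]
    split_ifs <;> omega
  rw [Finset.sum_congr rfl (fun i _ => h1 i), Finset.sum_add_distrib, ← Finset.sum_filter,
    Finset.sum_const, card_lt q (by omega), Finset.sum_ite_eq' univ]
  simp only [Finset.mem_univ, if_true, smul_eq_mul]
  obtain ⟨e, rfl⟩ : ∃ e, d = e + 1 := ⟨d - 1, by omega⟩
  simp only [Nat.add_sub_cancel]
  ring

noncomputable instance (n d : ℕ) : Fintype (Mon n d) :=
  Fintype.subtype (AD univ d) (fun u => by
    rw [mem_AD]
    simp)

lemma card_Mon (n d : ℕ) (P : (Fin (n + 1) →₀ ℕ) → Prop) [DecidablePred P] :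
    ((univ : Finset (Mon n d)).filter (fun u => P u.1)).card = ((AD univ d).filter P).card := by
  classical
  rw [← Finset.card_map (Function.Embedding.subtype _)]
  congr 1
  ext u
  rw [Finset.mem_map, Finset.mem_filter, mem_AD]
  constructor
  · rintro ⟨v, hv, rfl⟩
    rw [Finset.mem_filter] at hv
    exact ⟨⟨v.2, fun i hi => absurd (Finset.mem_univ i) hi⟩, hv.2⟩
  · rintro ⟨⟨h1, _⟩, h2⟩
    exact ⟨⟨u, h1⟩, by rw [Finset.mem_filter]; exact ⟨Finset.mem_univ _, h2⟩, rfl⟩

/-- the pure powers with index in `t` -/
lemma card_pure (t : Finset (Fin (n + 1))) {d : ℕ} (hd : 1 ≤ d) :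
    (t.image (fun j => Finsupp.single j d)).card = t.card := by
  classical
  apply Finset.card_image_of_injective
  intro i j h
  have h2 : (Finsupp.single i d : Fin (n + 1) →₀ ℕ) = Finsupp.single j d := h
  exact (Finsupp.single_left_inj (by omega)).1 h2

/-- number of monomials of degree `d` dividing `f_0` -/
lemma card_D {b d q : ℕ} (hq1 : 1 ≤ q) (hq : q ≤ n) (hd : b + q + 1 ≤ d) :
    (((univ : Finset (Mon n d)).filter (fun u => u.1 ≤ f0 n b d q)).card : ℤ) = lam b d q := by
  classical
  rw [card_Mon n d (fun u => u ≤ f0 n b d q)]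
  set jq : Fin (n + 1) := ⟨q, by omega⟩ with hjq
  have hjlo : jq ∈ lo n q := by simp [lo, hjq]
  -- the total
  have hT : (AD (lo n q) d).card = (q + d).choose q := card_AD _ d q (card_lo hq)
  have hA : ((AD (lo n q) d).filter (fun u => q + b + 1 ≤ u jq)).card = (d - b - 1).choose q := by
    rw [card_AD_ge _ d (q + b + 1) jq hjlo (by omega), card_AD _ _ q (card_lo hq)]
    congr 1
    omega
  set t : Finset (Fin (n + 1)) := univ.filter (fun i => i.val < q) with ht
  have hP : (t.image (fun j => Finsupp.single j d)).card = q := by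
    rw [card_pure t (by omega), ht, card_lt q (by omega)]
  have hsplit : AD (lo n q) d = ((AD univ d).filter (fun u => u ≤ f0 n b d q)) ∪
      (((AD (lo n q) d).filter (fun u => q + b + 1 ≤ u jq)) ∪
        (t.image (fun j => Finsupp.single j d))) := by
    ext u
    rw [Finset.mem_union, Finset.mem_union, Finset.mem_filter, Finset.mem_filter, Finset.mem_image]
    constructor
    · intro hu
      by_cases h1 : q + b + 1 ≤ u jq
      · right; left; exact ⟨hu, h1⟩
      by_cases h2 : ∃ i : Fin (n + 1), i.val < q ∧ d ≤ u i
      · obtain ⟨i, hi1, hi2⟩ := h2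
        right; right
        refine ⟨i, by simp [ht, hi1], ?_⟩
        rw [mem_AD] at hu
        have := eq_single (d := d) (u := u) (by rw [sum_univ_of_AD hu.2]; exact hu.1) i hi2
        exact this.symm
      · left
        rw [mem_AD] at hu
        refine ⟨?_, ?_⟩
        · rw [mem_AD]
          exact ⟨by rw [sum_univ_of_AD hu.2]; exact hu.1, fun i hi => absurd (Finset.mem_univ i) hi⟩
        · intro i
          rw [f0_apply]
          split_ifs with h3 h4
          · by_contra h5
            exact h2 ⟨i, h3, by omega⟩
          · have : i = jq := Fin.ext h4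
            rw [this]; omega
          · rw [hu.2 i]
            simp only [lo, Finset.mem_filter, Finset.mem_univ, true_and]
            omega
    · rintro (⟨h1, h2⟩ | ⟨h1, _⟩ | ⟨i, hi, rfl⟩)
      · rw [mem_AD] at h1 ⊢
        have h3 : ∀ i, i ∉ lo n q → u i = 0 := by
          intro i hi
          have h4 := h2 i
          rw [f0_apply] at h4
          simp only [lo, Finset.mem_filter, Finset.mem_univ, true_and] at hi
          rw [if_neg (by omega), if_neg (by omega)] at h4
          omega
        exact ⟨by rw [← sum_univ_of_AD h3]; exact h1.1, h3⟩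
      · exact h1
      · rw [mem_AD]
        have hi2 : i ∈ lo n q := by
          simp only [ht, Finset.mem_filter, Finset.mem_univ, true_and] at hi
          simp only [lo, Finset.mem_filter, Finset.mem_univ, true_and]
          omega
        refine ⟨?_, ?_⟩
        · rw [Finset.sum_eq_single i]
          · simp
          · intro j _ hj
            rw [Finsupp.single_apply, if_neg (Ne.symm hj)]
          · intro h; exact absurd hi2 h
        · intro j hj
          rw [Finsupp.single_apply, if_neg]
          rintro rfl
          exact hj hi2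
  have hdis1 : Disjoint ((AD (lo n q) d).filter (fun u => q + b + 1 ≤ u jq))
      (t.image (fun j => Finsupp.single j d)) := by
    rw [Finset.disjoint_left]
    intro u hu hu2
    rw [Finset.mem_filter] at hu
    rw [Finset.mem_image] at hu2
    obtain ⟨i, hi, rfl⟩ := hu2
    have h1 := hu.2
    rw [Finsupp.single_apply, if_neg] at h1
    · omega
    · rintro rfl
      simp [ht, hjq] at hi
  have hdis2 : Disjoint ((AD univ d).filter (fun u => u ≤ f0 n b d q))
      (((AD (lo n q) d).filter (fun u => q + b + 1 ≤ u jq)) ∪
        (t.image (fun j => Finsupp.single j d))) := by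
    rw [Finset.disjoint_left]
    intro u hu hu2
    rw [Finset.mem_filter] at hu
    rw [Finset.mem_union, Finset.mem_filter, Finset.mem_image] at hu2
    rcases hu2 with ⟨_, h1⟩ | ⟨i, _, rfl⟩
    · have h2 := hu.2 jq
      rw [f0_apply, if_neg (by simp [hjq]), if_pos (by simp [hjq])] at h2
      omega
    · have h2 := hu.2 i
      have h3 := f0_lt (n := n) hd i
      rw [Finsupp.single_apply, if_pos rfl] at h2
      omega
  have hcard := congrArg Finset.card hsplit
  rw [Finset.card_union_of_disjoint hdis2, Finset.card_union_of_disjoint hdis1, hT, hA, hP] at hcard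
  rw [lam]
  have h5 : ((d + q).choose q) = (q + d).choose q := by rw [add_comm]
  rw [h5, hcard]
  push_cast
  ring

/-- number of monomials of degree `d` annihilating `f_0` modulo the pure powers -/
lemma card_A {b d q : ℕ} (hq1 : 1 ≤ q) (hq : q ≤ n) (hd : b + q + 1 ≤ d) :
    (((univ : Finset (Mon n d)).filter (fun u => (∃ j, d ≤ f0 n b d q j + u.1 j) ∧
      ∀ j, u.1 ≠ Finsupp.single j d)).card : ℤ) = mu n b d q := by
  classical
  rw [card_Mon n d (fun u => (∃ j, d ≤ f0 n b d q j + u j) ∧ ∀ j, u ≠ Finsupp.single j d)]
  set jq : Fin (n + 1) := ⟨q, by omega⟩ with hjq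
  have hjhi : jq ∈ hi n q := by simp [hi, hjq]
  -- the monomials not annihilating f_0
  set N : Finset (Fin (n + 1) →₀ ℕ) :=
    (AD univ d).filter (fun u => ∀ j, f0 n b d q j + u j < d) with hN
  set t : Finset (Fin (n + 1)) := univ.filter (fun i => q < i.val) with ht
  have htcard : t.card = n - q := by
    have h1 : ((univ : Finset (Fin (n + 1))).filter (fun i => i.val < q + 1)).card
        + ((univ : Finset (Fin (n + 1))).filter (fun i => ¬ i.val < q + 1)).card = n + 1 := by
      rw [Finset.card_filter_add_card_filter_not]; simp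
    rw [card_lt (q + 1) (by omega)] at h1
    have h2 : t = (univ : Finset (Fin (n + 1))).filter (fun i => ¬ i.val < q + 1) := by
      ext i
      simp only [ht, Finset.mem_filter, Finset.mem_univ, true_and]
      omega
    rw [h2]; omega
  have hT : (AD (hi n q) d).card = ((n - q) + d).choose (n - q) := card_AD _ d (n - q) (card_hi hq)
  have hA : ((AD (hi n q) d).filter (fun u => d - q - b ≤ u jq)).card
      = ((n - q) + (q + b)).choose (n - q) := by
    rw [card_AD_ge _ d (d - q - b) jq hjhi (by omega), card_AD _ _ (n - q) (card_hi hq)]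
    congr 1
    omega
  have hP : (t.image (fun j => Finsupp.single j d)).card = n - q := by
    rw [card_pure t (by omega), htcard]
  have hsplit : AD (hi n q) d = N ∪
      (((AD (hi n q) d).filter (fun u => d - q - b ≤ u jq)) ∪
        (t.image (fun j => Finsupp.single j d))) := by
    ext u
    rw [Finset.mem_union, Finset.mem_union, hN, Finset.mem_filter, Finset.mem_filter,
      Finset.mem_image]
    constructor
    · intro hu
      by_cases h1 : d - q - b ≤ u jq
      · right; left; exact ⟨hu, h1⟩
      rw [mem_AD] at hu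
      by_cases h2 : ∃ i : Fin (n + 1), q < i.val ∧ d ≤ u i
      · obtain ⟨i, hi1, hi2⟩ := h2
        right; right
        refine ⟨i, by simp [ht, hi1], ?_⟩
        have := eq_single (d := d) (u := u) (by rw [sum_univ_of_AD hu.2]; exact hu.1) i hi2
        exact this.symm
      · left
        refine ⟨?_, ?_⟩
        · rw [mem_AD]
          exact ⟨by rw [sum_univ_of_AD hu.2]; exact hu.1, fun i hi => absurd (Finset.mem_univ i) hi⟩
        · intro i
          rw [f0_apply]
          split_ifs with h3 h4
          · rw [hu.2 i]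
            · omega
            · simp only [hi, Finset.mem_filter, Finset.mem_univ, true_and]
              omega
          · have : i = jq := Fin.ext h4
            rw [this]; omega
          · by_contra h5
            exact h2 ⟨i, by omega, by omega⟩
    · rintro (⟨h1, h2⟩ | ⟨h1, _⟩ | ⟨i, hi', rfl⟩)
      · rw [mem_AD] at h1 ⊢
        have h3 : ∀ i, i ∉ hi n q → u i = 0 := by
          intro i hi'
          have h4 := h2 i
          rw [f0_apply] at h4
          simp only [hi, Finset.mem_filter, Finset.mem_univ, true_and] at hi'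
          rw [if_pos (by omega)] at h4
          omega
        exact ⟨by rw [← sum_univ_of_AD h3]; exact h1.1, h3⟩
      · exact h1
      · rw [mem_AD]
        have hi2 : i ∈ hi n q := by
          simp only [ht, Finset.mem_filter, Finset.mem_univ, true_and] at hi'
          simp only [hi, Finset.mem_filter, Finset.mem_univ, true_and]
          omega
        refine ⟨?_, ?_⟩
        · rw [Finset.sum_eq_single i]
          · simp
          · intro j _ hj
            rw [Finsupp.single_apply, if_neg (Ne.symm hj)]
          · intro h; exact absurd hi2 h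
        · intro j hj
          rw [Finsupp.single_apply, if_neg]
          rintro rfl
          exact hj hi2
  have hdis1 : Disjoint ((AD (hi n q) d).filter (fun u => d - q - b ≤ u jq))
      (t.image (fun j => Finsupp.single j d)) := by
    rw [Finset.disjoint_left]
    intro u hu hu2
    rw [Finset.mem_filter] at hu
    rw [Finset.mem_image] at hu2
    obtain ⟨i, hi, rfl⟩ := hu2
    have h1 := hu.2
    rw [Finsupp.single_apply, if_neg] at h1
    · omega
    · rintro rfl
      simp [ht, hjq] at hi
  have hdis2 : Disjoint N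
      (((AD (hi n q) d).filter (fun u => d - q - b ≤ u jq)) ∪
        (t.image (fun j => Finsupp.single j d))) := by
    rw [Finset.disjoint_left]
    intro u hu hu2
    rw [hN, Finset.mem_filter] at hu
    rw [Finset.mem_union, Finset.mem_filter, Finset.mem_image] at hu2
    rcases hu2 with ⟨_, h1⟩ | ⟨i, _, rfl⟩
    · have h2 := hu.2 jq
      rw [f0_apply, if_neg (by simp [hjq]), if_pos (by simp [hjq])] at h2
      omega
    · have h2 := hu.2 i
      rw [Finsupp.single_apply, if_pos rfl] at h2
      omega
  have hNcard := congrArg Finset.card hsplit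
  rw [Finset.card_union_of_disjoint hdis2, Finset.card_union_of_disjoint hdis1, hT, hA, hP] at hNcard
  -- the complement
  set B : Finset (Fin (n + 1) →₀ ℕ) := (AD univ d).filter (fun u =>
    (∃ j, d ≤ f0 n b d q j + u j) ∧ ∀ j, u ≠ Finsupp.single j d) with hB
  have hall : (AD (univ : Finset (Fin (n + 1))) d).card = (n + d).choose n :=
    card_AD _ d n (by simp)
  have hP2 : ((univ : Finset (Fin (n + 1))).image (fun j => Finsupp.single j d)).card = n + 1 := by
    rw [card_pure univ (by omega)]; simp
  have hsplit2 : AD (univ : Finset (Fin (n + 1))) d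
      = B ∪ (N ∪ (univ.image (fun j => Finsupp.single j d))) := by
    ext u
    rw [Finset.mem_union, Finset.mem_union, hB, hN, Finset.mem_filter, Finset.mem_filter,
      Finset.mem_image]
    constructor
    · intro hu
      by_cases h1 : ∃ j, u = Finsupp.single j d
      · obtain ⟨j, hj⟩ := h1
        right; right; exact ⟨j, Finset.mem_univ _, hj.symm⟩
      by_cases h2 : ∃ j, d ≤ f0 n b d q j + u j
      · left; exact ⟨hu, h2, fun j hj => h1 ⟨j, hj⟩⟩
      · right; left
        refine ⟨hu, fun j => ?_⟩
        by_contra h3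
        exact h2 ⟨j, by omega⟩
    · rintro (⟨h1, _⟩ | ⟨h1, _⟩ | ⟨j, _, rfl⟩)
      · exact h1
      · exact h1
      · rw [mem_AD]
        refine ⟨by simp [Finsupp.single_apply], fun i hi => absurd (Finset.mem_univ i) hi⟩
  have hd1 : Disjoint N ((univ : Finset (Fin (n + 1))).image (fun j => Finsupp.single j d)) := by
    rw [Finset.disjoint_left]
    intro u hu hu2
    rw [hN, Finset.mem_filter] at hu
    rw [Finset.mem_image] at hu2
    obtain ⟨i, _, rfl⟩ := hu2
    have h2 := hu.2 i
    rw [Finsupp.single_apply, if_pos rfl] at h2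
    omega
  have hd2 : Disjoint B (N ∪ ((univ : Finset (Fin (n + 1))).image (fun j => Finsupp.single j d))) := by
    rw [Finset.disjoint_left]
    intro u hu hu2
    rw [hB, Finset.mem_filter] at hu
    rw [Finset.mem_union, hN, Finset.mem_filter, Finset.mem_image] at hu2
    rcases hu2 with ⟨_, h1⟩ | ⟨i, _, h1⟩
    · obtain ⟨j, hj⟩ := hu.2.1
      have := h1 j
      omega
    · exact hu.2.2 i h1.symm
  have hcard := congrArg Finset.card hsplit2
  rw [Finset.card_union_of_disjoint hd2, Finset.card_union_of_disjoint hd1, hall, hP2] at hcard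
  rw [mu]
  have h5 : (d + n).choose n = (n + d).choose n := by rw [add_comm]
  have h6 : (d + n - q).choose (n - q) = ((n - q) + d).choose (n - q) := by
    congr 1; omega
  have h7 : (n + b).choose (n - q) = ((n - q) + (q + b)).choose (n - q) := by
    congr 1; omega
  rw [h5, h6, h7, hNcard, hcard]
  have h8 : ((n - q : ℕ) : ℤ) = (n : ℤ) - q := Nat.cast_sub hq
  push_cast
  rw [h8]
  ring

end Pool.Agent.H940V
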