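import Pool.Agent.H940V.Func

/-!
The explicit cycles.
-/

namespace Pool.Agent.H940V

open MvPolynomial TensorProduct ExteriorAlgebra

variable (k : Type*) [Field k] {n : ℕ}

/-- division by the monomial `x^s`, on forms of degree `d`. -/
noncomputable def divL {d : ℕ} (s : Fin (n + 1) →₀ ℕ) : Form k n (d : ℤ) →ₗ[k] Ring k n where
  toFun f := (f : Ring k n).divMonomial s
  map_add' := by
    intro f g
    rw [Submodule.coe_add, add_divMonomial]
  map_smul' := by
    intro c f
    ext u
    rw [coeff_divMonomial, Submodule.coe_smul, coeff_smul, RingHom.id_apply, coeff_smul,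
      coeff_divMonomial]

lemma divL_mem {d : ℕ} (s : Fin (n + 1) →₀ ℕ) (f : Form k n (d : ℤ)) :
    divL k s f ∈ Form k n ((d : ℤ) - ∑ i, (s i : ℤ)) := by
  intro u hu
  change coeff u ((f : Ring k n).divMonomial s) ≠ 0 at hu
  rw [coeff_divMonomial] at hu
  have h := f.2 _ hu
  rw [← h, eq_sub_iff_add_eq, ← Finset.sum_add_distrib]
  apply Finset.sum_congr rfl
  intro i _
  rw [Finsupp.add_apply]
  push_cast
  ring

/-- the functional `θ'_s`. -/
noncomputable def dth (d : ℕ) (s : Fin (n + 1) →₀ ℕ) : Module.Dual (Ring k n) (Mod k n d) :=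
  (divL k s).liftBaseChange (Ring k n)

lemma dth_one_tmul {d : ℕ} (s : Fin (n + 1) →₀ ℕ) (f : Form k n (d : ℤ)) :
    dth k d s (1 ⊗ₜ f) = divL k s f := by
  rw [dth, LinearMap.liftBaseChange_tmul, one_smul]

lemma mulMap_gg {d : ℕ} (s : Fin (n + 1) →₀ ℕ) (u : Mon n d) (h : s ≤ u.1) :
    mulMap k n d (gg k u) = monomial s 1 * dth k d s (gg k u) := by
  rw [gg, mulMap_one_tmul, dth_one_tmul]
  change monomial u.1 1 = monomial s 1 * (monomial u.1 (1 : k)).divMonomial s
  have h2 : u.1 = s + (u.1 - s) := (add_tsub_cancel_of_le h).symm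
  have h3 : (monomial u.1 (1 : k)) = monomial s 1 * monomial (u.1 - s) 1 := by
    rw [monomial_mul, ← h2, one_mul]
  rw [h3, divMonomial_monomial_mul]

lemma sum_single_cast (j : Fin (n + 1)) (m : ℕ) :
    ∑ i, ((Finsupp.single j m i : ℕ) : ℤ) = (m : ℤ) := by
  simp [Finsupp.single_apply]

/-- the pure power `x_j^d`. -/
noncomputable def pure (n d : ℕ) (j : Fin (n + 1)) : Mon n d :=
  ⟨Finsupp.single j d, by simp [Finsupp.single_apply]⟩

variable {d : ℕ} (f : Fin (n + 1) →₀ ℕ) (I : Finset (Mon n d)) (gr : Mon n d → Fin (n + 1))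

/-- the list of the members of `I` in group `j`. -/
noncomputable def Lj (j : Fin (n + 1)) : List (Mon n d) :=
  (I.filter (fun u => gr u = j)).toList

/-- the local cycle of group `j` -/
noncomputable def wj (j : Fin (n + 1)) : Ext k n d :=
  (monomial (Finsupp.single j (f j)) (1 : k) : Ring k n) • mw (gg k) (Lj I gr j)
    - ι (Ring k n) (gg k (pure n d j)) *
      ctr (dth k d (Finsupp.single j (d - f j))) (mw (gg k) (Lj I gr j))

/-- the cycle `z_I`. -/
noncomputable def zI : Ext k n d := ((List.finRange (n + 1)).map (wj k f I gr)).prod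

/-- all the members of `I`, sorted by groups. -/
noncomputable def Lt : List (Mon n d) := (List.finRange (n + 1)).flatMap (Lj I gr)

lemma mem_Lj (j : Fin (n + 1)) (u : Mon n d) : u ∈ Lj I gr j ↔ u ∈ I ∧ gr u = j := by
  rw [Lj, Finset.mem_toList, Finset.mem_filter]

lemma mem_Lt (u : Mon n d) : u ∈ Lt I gr ↔ u ∈ I := by
  rw [Lt, List.mem_flatMap]
  constructor
  · rintro ⟨j, _, hj⟩
    exact ((mem_Lj I gr j u).1 hj).1
  · intro h
    exact ⟨gr u, List.mem_finRange _, (mem_Lj I gr _ u).2 ⟨h, rfl⟩⟩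

lemma Lt_nodup : (Lt I gr).Nodup := by
  rw [Lt, List.nodup_flatMap]
  refine ⟨fun j _ => Finset.nodup_toList _, ?_⟩
  refine (List.nodup_finRange (n + 1)).pairwise_of_forall_ne ?_
  intro i _ j _ hij u hu hu'
  exact hij (((mem_Lj I gr i u).1 hu).2.symm.trans ((mem_Lj I gr j u).1 hu').2)

lemma Lt_length : (Lt I gr).length = I.card := by
  classical
  rw [← List.toFinset_card_of_nodup (Lt_nodup I gr)]
  congr 1
  ext u
  rw [List.mem_toFinset, mem_Lt]

lemma wj_cycle (hf : ∀ j, f j ≤ d) (hI : ∀ u ∈ I, d ≤ f (gr u) + u.1 (gr u)) (j : Fin (n + 1)) :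
    ctr (mulMap k n d) (wj k f I gr j) = 0 := by
  refine local_cycle (mulMap k n d) (dth k d (Finsupp.single j (d - f j))) (gg k) (Lj I gr j)
    (gg k (pure n d j)) (monomial (Finsupp.single j (d - f j)) 1) _ ?_ ?_
  · intro u hu
    obtain ⟨h1, h2⟩ := (mem_Lj I gr j u).1 hu
    apply mulMap_gg
    rw [Finsupp.single_le_iff]
    have := hI u h1
    rw [h2] at this
    omega
  · rw [gg, mulMap_one_tmul]
    change monomial (Finsupp.single j d) 1 = _
    rw [monomial_mul, ← Finsupp.single_add, one_mul, Nat.sub_add_cancel (hf j)]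

lemma zI_cycle (hf : ∀ j, f j ≤ d) (hI : ∀ u ∈ I, d ≤ f (gr u) + u.1 (gr u)) :
    koszul k n d (zI k f I gr) = 0 := by
  rw [koszul_apply]
  exact prod_cycle _ _ _ (fun j _ => wj_cycle k f I gr hf hI j)

lemma gg_eq : (gg k : Mon n d → Mod k n d) = fun a => (1 ⊗ₜ[k] bas k a : Mod k n d) := rfl

lemma wj_chain (hf : ∀ j, f j ≤ d) (j : Fin (n + 1)) :
    wj k f I gr j ∈ chain k n d (Lj I gr j).length (f j : ℤ) := by
  rw [wj]
  refine Submodule.sub_mem _ ?_ ?_
  · have h1 : (monomial (Finsupp.single j (f j)) (1 : k) : Ring k n) ∈ Form k n (f j : ℤ) := by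
      have := Form_monomial (k := k) (Finsupp.single j (f j)) 1
      rwa [sum_single_cast] at this
    have h3 := smul_chain h1 (mw_chain (bas k) (Lj I gr j))
    rwa [zero_add] at h3
  · rcases hl : Lj I gr j with _ | ⟨a, l⟩
    · rw [mw_nil, ctr_one, mul_zero]; exact Submodule.zero_mem _
    · have h1 := ctr_chain (bas k) (dth k d (Finsupp.single j (d - f j))) (f j : ℤ) (by
        intro s
        rw [dth_one_tmul]
        have h := divL_mem k (Finsupp.single j (d - f j)) s
        have h2 : (d : ℤ) - ∑ i, ((Finsupp.single j (d - f j) i : ℕ) : ℤ) = (f j : ℤ) := by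
          rw [sum_single_cast, Nat.cast_sub (hf j)]
          ring
        rwa [h2] at h) (a :: l)
      have h2 := chain_mul (ι_chain (bas k (pure n d j))) h1
      rw [zero_add] at h2
      have h3 : 1 + ((a :: l).length - 1) = (a :: l).length := by simp [add_comm]
      rw [h3] at h2
      exact h2

lemma zI_chain (hf : ∀ j, f j ≤ d) :
    zI k f I gr ∈ chain k n d I.card (∑ i, (f i : ℤ)) := by
  have h := prod_chain (wj k f I gr) (fun j => (Lj I gr j).length) (fun j => (f j : ℤ))
    (List.finRange (n + 1)) (fun j _ => wj_chain k f I gr hf j)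
  have h1 : ((List.finRange (n + 1)).map (fun j => (Lj I gr j).length)).sum = I.card := by
    rw [← Lt_length I gr, Lt, List.length_flatMap]
  have h2 : ((List.finRange (n + 1)).map (fun j => (f j : ℤ))).sum = ∑ i, (f i : ℤ) := by
    rw [← List.ofFn_eq_map, List.sum_ofFn]
  rw [h1, h2] at h
  exact h

lemma map_wj (L : List (Mon n d)) (j : Fin (n + 1)) (hL : pure n d j ∉ L) :
    ExteriorAlgebra.map (Pr k L) (wj k f I gr j)
      = (monomial (Finsupp.single j (f j)) (1 : k) : Ring k n) •
        mw (fun u => Pr k L (gg k u)) (Lj I gr j) := by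
  rw [wj, map_sub, map_mul, map_apply_ι, Pr_gg_of_not_mem k L _ hL, map_zero, zero_mul, sub_zero,
    map_smul, map_mw]

lemma map_zI (L : List (Mon n d)) (hL : ∀ j, pure n d j ∉ L) :
    ExteriorAlgebra.map (Pr k L) (zI k f I gr)
      = (monomial f (1 : k) : Ring k n) • mw (fun u => Pr k L (gg k u)) (Lt I gr) := by
  rw [zI, map_list_prod, List.map_map]
  have key : ∀ l : List (Fin (n + 1)),
      (l.map (ExteriorAlgebra.map (Pr k L) ∘ wj k f I gr)).prod
        = (monomial ((l.map (fun j => Finsupp.single j (f j))).sum) (1 : k) : Ring k n) •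
          mw (fun u => Pr k L (gg k u)) (l.flatMap (Lj I gr)) := by
    intro l
    induction l with
    | nil => simp [mw_nil]
    | cons j l ih =>
      rw [List.map_cons, List.prod_cons, ih, Function.comp_apply, map_wj k f I gr L j (hL j),
        List.flatMap_cons, mw_append, smul_mul_smul_comm, monomial_mul, one_mul, List.map_cons,
        List.sum_cons]
  rw [key]
  have h1 : ((List.finRange (n + 1)).map (fun j => Finsupp.single j (f j))).sum = f := by
    rw [← List.ofFn_eq_map, List.sum_ofFn]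
    exact Finsupp.univ_sum_single f
  rw [h1]
  rfl

lemma FL_zI_self (hI : ∀ j, pure n d j ∉ I) :
    FL k (Lt I gr) (zI k f I gr) = monomial f 1 := by
  have hL : ∀ j, pure n d j ∉ Lt I gr := fun j h => hI j ((mem_Lt I gr _).1 h)
  rw [FL_apply, map_zI k f I gr _ hL, map_smul, ← map_mw, ← FL_apply,
    FL_mw_self k _ (Lt_nodup I gr), smul_eq_mul, mul_one]

lemma FL_zI_ne (L : List (Mon n d)) (hL : ∀ j, pure n d j ∉ L) (u : Mon n d) (hu : u ∈ I)
    (hu' : u ∉ L) : FL k L (zI k f I gr) = 0 := by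
  rw [FL_apply, map_zI k f I gr _ hL, mw_eq_zero _ _ u ((mem_Lt I gr u).2 hu)
    (Pr_gg_of_not_mem k L u hu'), smul_zero, map_zero]

end Pool.Agent.H940V
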