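import Pool.Agent.H940V.Alg

/-!
Koszul cohomology `K_{p,q}(ℙⁿ, b; d)` of Veronese embeddings over an arbitrary field.
-/

namespace Pool.Agent.H940V

open MvPolynomial TensorProduct

variable (k : Type*) [Field k] (n : ℕ)

/-- The homogeneous coordinate ring `S = k[x_0,…,x_n]` of `ℙⁿ`. -/
abbrev Ring := MvPolynomial (Fin (n + 1)) k

/-- `S^e U`: the forms of degree `e` in `x_0,…,x_n`; it is `0` for `e < 0`. -/
def Form (e : ℤ) : Submodule k (MvPolynomial (Fin (n + 1)) k) where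
  carrier := {f | ∀ u : Fin (n + 1) →₀ ℕ, coeff u f ≠ 0 → ∑ i, (u i : ℤ) = e}
  add_mem' := by
    intro f g hf hg u hu
    rw [coeff_add] at hu
    by_cases h : coeff u f = 0
    · exact hg u (by intro h'; exact hu (by rw [h, h', add_zero]))
    · exact hf u h
  zero_mem' := by
    intro u hu
    exact absurd (coeff_zero u) hu
  smul_mem' := by
    intro c f hf u hu
    rw [coeff_smul] at hu
    exact hf u (by intro h'; exact hu (by rw [h', smul_zero]))

/-- The free `S`-module `S ⊗ S^d U`. -/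
abbrev Mod (d : ℕ) := Ring k n ⊗[k] Form k n (d : ℤ)

/-- The exterior algebra over `S` of `S ⊗ S^d U`; it is `⨁_p S ⊗ Λ^p(S^d U)`. -/
abbrev Ext (d : ℕ) := ExteriorAlgebra (Ring k n) (Mod k n d)

/-- The `S`-linear multiplication map `S ⊗ S^d U → S`, `f ⊗ s ↦ f s`. -/
noncomputable def mulMap (d : ℕ) : Module.Dual (Ring k n) (Mod k n d) :=
  (Form k n (d : ℤ)).subtype.liftBaseChange (Ring k n)

/-- The Koszul differential `s_1 ∧ … ∧ s_p ⊗ f ↦ ∑ (-1)^(i+1) s_1 ∧ … ŝ_i … ∧ s_p ⊗ s_i f`, i.e. the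
contraction with the multiplication map. -/
noncomputable def koszul (d : ℕ) : Ext k n d →ₗ[k] Ext k n d :=
  (CliffordAlgebra.contractLeft (Q := 0) (mulMap k n d)).restrictScalars k

/-- `Λ^p(S^d U) ⊗ S^e U`, as a subspace of the exterior algebra: the span of all
`f • (s_1 ∧ … ∧ s_p)` with `f ∈ S^e U`, `s_i ∈ S^d U`. -/
noncomputable def chain (d p : ℕ) (e : ℤ) : Submodule k (Ext k n d) :=
  Submodule.span k {x | ∃ f ∈ Form k n e, ∃ s : Fin p → Form k n (d : ℤ),
    x = f • ExteriorAlgebra.ιMulti (Ring k n) p (fun i => (1 ⊗ₜ[k] s i : Mod k n d))}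

/-- The cycles in `Λ^p(S^d U) ⊗ S^{qd+b} U`. -/
noncomputable def cyc (b d p q : ℕ) : Submodule k (Ext k n d) :=
  chain k n d p (q * d + b) ⊓ LinearMap.ker (koszul k n d)

/-- The boundaries: the image of `Λ^{p+1}(S^d U) ⊗ S^{(q-1)d+b} U`. -/
noncomputable def bdy (b d p q : ℕ) : Submodule k (Ext k n d) :=
  (chain k n d (p + 1) (((q : ℤ) - 1) * d + b)).map (koszul k n d)

/-- The Koszul cohomology group `K_{p,q}(ℙⁿ, b; d)`: cycles modulo boundaries. -/
abbrev KK (b d p q : ℕ) := cyc k n b d p q ⧸ (bdy k n b d p q).submoduleOf (cyc k n b d p q)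

/-- `λ_q`. -/
def lam (b d q : ℕ) : ℤ := ((d + q).choose q : ℤ) - ((d - b - 1).choose q : ℤ) - q

/-- `μ_q`. -/
def mu (n b d q : ℕ) : ℤ :=
  ((d + n).choose n : ℤ) - ((d + n - q).choose (n - q) : ℤ) + ((n + b).choose (n - q) : ℤ) - q - 1

end Pool.Agent.H940V
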