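import Pool.Agent.H940V.ElMain

/-!
Sanity checks: `s_1 ∧ … ∧ s_p ⊗ f` as an alternating function, the Koszul formula, and the
boundaries are cycles. (`Bridge.lean` has the comparison with the exterior algebra.)
-/

namespace Pool.Agent.H940V.El

open MvPolynomial TensorProduct ExteriorAlgebra

variable (k : Type*) [Field k] {n : ℕ}

/-- `s_1 ∧ … ∧ s_p ⊗ f`, i.e. `(u_1,…,u_p) ↦ det (coeff_{u_j} s_i) f` in place `p`. -/
noncomputable def ten {d p : ℕ} (s : Fin p → Form k n (d : ℤ)) (f : Ring k n) : Fam k n d :=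
  T k d (f • ιMulti (Ring k n) p (fun i => (1 ⊗ₜ[k] s i : Mod k n d)))

lemma ten_same {d p : ℕ} (s : Fin p → Form k n (d : ℤ)) (f : Ring k n) (v : Fin p → Mon n d) :
    ten k s f p v = f * C (Matrix.det (Matrix.of fun i a => coeff (v a).1 (s i : Ring k n))) := by
  rw [ten, T_apply, map_smul, FT_ιMulti, smul_eq_mul]

lemma ten_other {d p m : ℕ} (s : Fin p → Form k n (d : ℤ)) (f : Ring k n) (hm : m ≠ p) :
    ten k s f m = 0 := by
  funext v
  rw [ten, T_apply, map_smul, FT_ιMulti_ne k hm, smul_zero]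
  rfl

lemma ten_mem {d p : ℕ} {e : ℤ} (s : Fin p → Form k n (d : ℤ)) {f : Ring k n}
    (hf : f ∈ Form k n e) : ten k s f ∈ chain k n d p e :=
  T_chain k (Submodule.subset_span ⟨f, hf, s, rfl⟩)

/-- The Koszul formula. -/
lemma koszul_ten {d p : ℕ} {e : ℤ} (s : Fin (p + 1) → Form k n (d : ℤ)) {f : Ring k n}
    (hf : f ∈ Form k n e) :
    koszul k n d (ten k s f)
      = ∑ j : Fin (p + 1), ten k (fun i => s (j.succAbove i))
          ((-1 : Ring k n) ^ (j : ℕ) * ((s j : Ring k n) * f)) := by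
  rw [ten, ← T_koszul k (Submodule.subset_span ⟨f, hf, s, rfl⟩), koszul_formula, map_sum]
  rfl

lemma koszul_mem {d p : ℕ} {e : ℤ} {c : Fam k n d} (hc : c ∈ chain k n d (p + 1) e) :
    koszul k n d c ∈ chain k n d p (e + d) := by
  obtain ⟨h1, h2, h3, h4⟩ := hc
  refine ⟨?_, ?_, ?_, ?_⟩
  · intro m hm
    funext v
    change ∑ u : Mon n d, monomial u.1 1 * c (m + 1) (Fin.cons u v) = 0
    apply Finset.sum_eq_zero
    intro u _
    rw [h1 (m + 1) (by omega), Pi.zero_apply, mul_zero]
  · intro m v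
    change ∑ u : Mon n d, monomial u.1 1 * c (m + 1) (Fin.cons u v) ∈ _
    refine Submodule.sum_mem _ fun u _ => ?_
    have h := Form_mul (bas k u).2 (h2 (m + 1) (Fin.cons u v))
    rwa [add_comm (d : ℤ) e] at h
  · intro m v hv
    change ∑ u : Mon n d, monomial u.1 1 * c (m + 1) (Fin.cons u v) = 0
    apply Finset.sum_eq_zero
    intro u _
    rw [h3, mul_zero]
    intro hinj
    apply hv
    intro i j hij
    have h := hinj (show (Fin.cons u v : Fin (m + 1) → Mon n d) i.succ
      = (Fin.cons u v : Fin (m + 1) → Mon n d) j.succ by rw [Fin.cons_succ, Fin.cons_succ, hij])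
    exact Fin.succ_injective _ h
  · intro m v i j hij
    change ∑ u : Mon n d, monomial u.1 1 * c (m + 1) (Fin.cons u (v ∘ Equiv.swap i j))
      = - ∑ u : Mon n d, monomial u.1 1 * c (m + 1) (Fin.cons u v)
    rw [← Finset.sum_neg_distrib]
    apply Finset.sum_congr rfl
    intro u _
    have h5 : (Fin.cons u (v ∘ Equiv.swap i j) : Fin (m + 1) → Mon n d)
        = (Fin.cons u v : Fin (m + 1) → Mon n d) ∘ Equiv.swap i.succ j.succ := by
      funext a
      refine Fin.cases ?_ (fun a => ?_) a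
      · rw [Fin.cons_zero, Function.comp_apply,
          Equiv.swap_apply_of_ne_of_ne (Fin.succ_ne_zero i).symm (Fin.succ_ne_zero j).symm,
          Fin.cons_zero]
      · rw [Fin.cons_succ, Function.comp_apply, Function.comp_apply]
        have h6 : Equiv.swap i.succ j.succ a.succ = (Equiv.swap i j a).succ := by
          rw [Equiv.swap_apply_def, Equiv.swap_apply_def]
          simp only [Fin.succ_inj]
          split_ifs <;> rfl
        rw [h6, Fin.cons_succ]
    rw [h5, h4 _ _ _ _ (fun h => hij (Fin.succ_injective _ h)), mul_neg]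

lemma koszul_koszul {d p : ℕ} {e : ℤ} {c : Fam k n d} (hc : c ∈ chain k n d p e) :
    koszul k n d (koszul k n d c) = 0 := by
  classical
  obtain ⟨h1, h2, h3, h4⟩ := hc
  funext m v
  change ∑ u : Mon n d, monomial u.1 1 * (∑ w : Mon n d, monomial w.1 1 *
    c (m + 2) (Fin.cons w (Fin.cons u v : Fin (m + 1) → Mon n d))) = 0
  have h5 : ∀ u : Mon n d, monomial u.1 (1 : k) * (∑ w : Mon n d, monomial w.1 1 *
      c (m + 2) (Fin.cons w (Fin.cons u v : Fin (m + 1) → Mon n d)))
      = ∑ w : Mon n d, monomial u.1 (1 : k) * (monomial w.1 1 *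
      c (m + 2) (Fin.cons w (Fin.cons u v : Fin (m + 1) → Mon n d))) := fun u => Finset.mul_sum _ _ _
  rw [Finset.sum_congr rfl (fun u _ => h5 u), ← Finset.sum_product']
  have hsw : ∀ u w : Mon n d, c (m + 2) (Fin.cons w (Fin.cons u v : Fin (m + 1) → Mon n d))
      = - c (m + 2) (Fin.cons u (Fin.cons w v : Fin (m + 1) → Mon n d)) := by
    intro u w
    rw [← h4 _ _ 0 1 (by simp)]
    congr 1
    funext a
    refine Fin.cases ?_ (fun a => ?_) a
    · rw [Function.comp_apply, Equiv.swap_apply_left]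
      rfl
    · refine Fin.cases ?_ (fun a => ?_) a
      · rw [Function.comp_apply]
        have : Equiv.swap (0 : Fin (m + 2)) 1 (Fin.succ 0) = 0 := Equiv.swap_apply_right _ _
        rw [this]
        rfl
      · rw [Function.comp_apply, Equiv.swap_apply_of_ne_of_ne]
        · rfl
        · exact Fin.succ_ne_zero _
        · intro h
          have h' : a.succ = (0 : Fin (m + 1)) := Fin.succ_injective _ h
          exact Fin.succ_ne_zero _ h'
  refine Finset.sum_involution (fun x _ => (x.2, x.1)) ?_ ?_ ?_ ?_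
  · rintro ⟨u, w⟩ _
    simp only
    rw [hsw u w]
    ring
  · rintro ⟨u, w⟩ _ hne heq
    apply hne
    have h6 : u = w := (Prod.ext_iff.1 heq).2
    subst h6
    simp only
    rw [h3, mul_zero, mul_zero]
    intro hinj
    have h7 := hinj (show (Fin.cons u (Fin.cons u v : Fin (m + 1) → Mon n d) : Fin (m + 2) → Mon n d) 0
      = (Fin.cons u (Fin.cons u v : Fin (m + 1) → Mon n d) : Fin (m + 2) → Mon n d) 1 from rfl)
    simp at h7
  · intro x _
    exact Finset.mem_univ _
  · intro x _
    rfl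

/-- Boundaries are cycles. -/
theorem bdy_le_cyc (n b d p q : ℕ) : bdy k n b d p q ≤ cyc k n b d p q := by
  rintro _ ⟨c, hc, rfl⟩
  refine ⟨?_, ?_⟩
  · have h := koszul_mem k hc
    have h2 : (((q : ℤ) - 1) * d + b) + d = (q : ℤ) * d + b := by ring
    rwa [h2] at h
  · rw [SetLike.mem_coe, LinearMap.mem_ker]
    exact koszul_koszul k hc

end Pool.Agent.H940V.El
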