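import Pool.Agent.H940V.Main

/-!
Koszul cohomology `K_{p,q}(ℙⁿ, b; d)` of Veronese embeddings over an arbitrary field, in the
monomial basis of `S^d U`: elements of `Λ^p(S^d U) ⊗ S^e U` are the alternating functions of `p`
monomials of degree `d` with values in `S^e U`.
-/

namespace Pool.Agent.H940V.El

open MvPolynomial

variable (k : Type*) [Field k] (n : ℕ)

/-- Families `c = (c_m)` of functions `c_m` of `m` monomials of degree `d`, with values in
`S = k[x_0,…,x_n]`. -/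
abbrev Fam (d : ℕ) := (m : ℕ) → (Fin m → Mon n d) → MvPolynomial (Fin (n + 1)) k

/-- `Λ^p(S^d U) ⊗ S^e U`: the alternating functions of `p` monomials of degree `d` with values in
`S^e U`, as families concentrated in place `p`. (`s_1 ∧ … ∧ s_p ⊗ f` is the function
`(u_1, …, u_p) ↦ det (coeff_{u_j} s_i) f`.) -/
def chain (d p : ℕ) (e : ℤ) : Submodule k (Fam k n d) where
  carrier := {c | (∀ m, m ≠ p → c m = 0) ∧ (∀ m v, c m v ∈ Form k n e) ∧
    (∀ m v, ¬ Function.Injective v → c m v = 0) ∧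
    ∀ m v (i j : Fin m), i ≠ j → c m (v ∘ Equiv.swap i j) = - c m v}
  add_mem' := by
    rintro a b ⟨a1, a2, a3, a4⟩ ⟨b1, b2, b3, b4⟩
    refine ⟨fun m hm => ?_, fun m v => ?_, fun m v hv => ?_, fun m v i j hij => ?_⟩
    · rw [Pi.add_apply, a1 m hm, b1 m hm, add_zero]
    · exact Submodule.add_mem _ (a2 m v) (b2 m v)
    · rw [Pi.add_apply, Pi.add_apply, a3 m v hv, b3 m v hv, add_zero]
    · rw [Pi.add_apply, Pi.add_apply, Pi.add_apply, a4 m v i j hij, b4 m v i j hij, neg_add]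
  zero_mem' := ⟨fun _ _ => rfl, fun _ _ => Submodule.zero_mem _, fun _ _ _ => rfl,
    fun _ _ _ _ _ => neg_zero.symm⟩
  smul_mem' := by
    rintro t a ⟨a1, a2, a3, a4⟩
    refine ⟨fun m hm => ?_, fun m v => ?_, fun m v hv => ?_, fun m v i j hij => ?_⟩
    · rw [Pi.smul_apply, a1 m hm, smul_zero]
    · exact Submodule.smul_mem _ t (a2 m v)
    · rw [Pi.smul_apply, Pi.smul_apply, a3 m v hv, smul_zero]
    · rw [Pi.smul_apply, Pi.smul_apply, Pi.smul_apply, a4 m v i j hij, smul_neg]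

/-- The Koszul differential `s_1 ∧ … ∧ s_p ⊗ f ↦ ∑ (-1)^(i+1) s_1 ∧ … ŝ_i … ∧ s_p ⊗ s_i f`:
`(∂c)(u_1,…,u_m) = ∑_u x^u c(u,u_1,…,u_m)`, the sum over all monomials of degree `d`. -/
noncomputable def koszul (d : ℕ) : Fam k n d →ₗ[k] Fam k n d where
  toFun c m v := ∑ u : Mon n d, monomial u.1 1 * c (m + 1) (Fin.cons u v)
  map_add' a b := by
    funext m v
    simp only [Pi.add_apply, mul_add, Finset.sum_add_distrib]
  map_smul' t a := by
    funext m v
    simp only [Pi.smul_apply, mul_smul_comm, Finset.smul_sum, RingHom.id_apply]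

/-- The cycles in `Λ^p(S^d U) ⊗ S^{qd+b} U`. -/
noncomputable def cyc (b d p q : ℕ) : Submodule k (Fam k n d) :=
  chain k n d p (q * d + b) ⊓ LinearMap.ker (koszul k n d)

/-- The boundaries: the image of `Λ^{p+1}(S^d U) ⊗ S^{(q-1)d+b} U`. -/
noncomputable def bdy (b d p q : ℕ) : Submodule k (Fam k n d) :=
  (chain k n d (p + 1) (((q : ℤ) - 1) * d + b)).map (koszul k n d)

/-- The Koszul cohomology group `K_{p,q}(ℙⁿ, b; d)`: cycles modulo boundaries. -/
abbrev KK (b d p q : ℕ) := cyc k n b d p q ⧸ (bdy k n b d p q).submoduleOf (cyc k n b d p q)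

end Pool.Agent.H940V.El
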