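import Pool.Agent.H940V.Chain

/-!
The functional detecting a given basis element of the Koszul complex.
-/

namespace Pool.Agent.H940V

open MvPolynomial TensorProduct ExteriorAlgebra

/-- The monomials of degree `d` in `x_0,…,x_n`. -/
abbrev Mon (n d : ℕ) : Type := {u : Fin (n + 1) →₀ ℕ // ∑ i, u i = d}

variable (k : Type*) [Field k] {n : ℕ}

/-- The monomial as a form. -/
noncomputable def bas {d : ℕ} (u : Mon n d) : Form k n (d : ℤ) :=
  ⟨monomial u.1 1, by
    have h := Form_monomial (k := k) u.1 1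
    have h2 : (∑ i, (u.1 i : ℤ)) = (d : ℤ) := by
      have h3 := u.2
      exact_mod_cast h3
    rwa [h2] at h⟩

/-- `1 ⊗ x^u`. -/
noncomputable def gg {d : ℕ} (u : Mon n d) : Mod k n d := 1 ⊗ₜ[k] bas k u

/-- the coordinate functional -/
noncomputable def coefL {d : ℕ} (u : Mon n d) : Form k n (d : ℤ) →ₗ[k] Ring k n :=
  (Algebra.linearMap k (Ring k n)) ∘ₗ (MvPolynomial.lcoeff k u.1) ∘ₗ (Form k n (d : ℤ)).subtype

lemma coefL_apply {d : ℕ} (u : Mon n d) (s : Form k n (d : ℤ)) :
    coefL k u s = C (coeff u.1 (s : Ring k n)) := rfl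

/-- projection to the coordinates in a list -/
noncomputable def Pr {d : ℕ} (L : List (Mon n d)) : Mod k n d →ₗ[Ring k n] (Fin L.length → Ring k n) :=
  LinearMap.pi (fun i => (coefL k (L.get i)).liftBaseChange (Ring k n))

lemma Pr_apply {d : ℕ} (L : List (Mon n d)) (s : Form k n (d : ℤ)) (i : Fin L.length) :
    Pr k L (1 ⊗ₜ s) i = C (coeff (L.get i).1 (s : Ring k n)) := by
  rw [Pr, LinearMap.pi_apply, LinearMap.liftBaseChange_tmul, one_smul, coefL_apply]

lemma Pr_gg_of_not_mem {d : ℕ} (L : List (Mon n d)) (u : Mon n d) (hu : u ∉ L) :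
    Pr k L (gg k u) = 0 := by
  classical
  funext i
  rw [gg, Pr_apply]
  change C (coeff (L.get i).1 (monomial u.1 (1 : k))) = 0
  rw [coeff_monomial, if_neg, C_0]
  intro h
  apply hu
  have : u = L.get i := Subtype.ext h
  rw [this]
  exact List.get_mem L i

lemma Pr_gg_get {d : ℕ} (L : List (Mon n d)) (hL : L.Nodup) (j i : Fin L.length) :
    Pr k L (gg k (L.get j)) i = if i = j then 1 else 0 := by
  classical
  rw [gg, Pr_apply]
  change C (coeff (L.get i).1 (monomial (L.get j).1 (1 : k))) = _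
  rw [coeff_monomial]
  by_cases h : i = j
  · rw [if_pos (by rw [h]), if_pos h, C_1]
  · rw [if_neg, if_neg h, C_0]
    intro h'
    apply h
    have h2 : L.get j = L.get i := Subtype.ext h'
    exact ((List.nodup_iff_injective_get.1 hL) h2).symm

/-- The functional. -/
noncomputable def FL {d : ℕ} (L : List (Mon n d)) : Ext k n d →ₗ[Ring k n] Ring k n :=
  (top (Ring k n) L.length) ∘ₗ (ExteriorAlgebra.map (Pr k L)).toLinearMap

lemma FL_apply {d : ℕ} (L : List (Mon n d)) (x : Ext k n d) :
    FL k L x = top (Ring k n) L.length (ExteriorAlgebra.map (Pr k L) x) := rfl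

lemma map_mw {d : ℕ} {N : Type*} [AddCommGroup N] [Module (Ring k n) N]
    (T : Mod k n d →ₗ[Ring k n] N) {α : Type*} (g : α → Mod k n d) (l : List α) :
    ExteriorAlgebra.map T (mw g l) = mw (fun a => T (g a)) l := by
  induction l with
  | nil => rw [mw_nil, mw_nil, map_one]
  | cons a l ih => rw [mw_cons, mw_cons, map_mul, ih, map_apply_ι]

lemma mw_eq_zero {R : Type*} [CommRing R] {M : Type*} [AddCommGroup M] [Module R M] {α : Type*}
    (g : α → M) (l : List α) (a : α) (ha : a ∈ l) (h : g a = 0) : mw (R := R) g l = 0 := by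
  induction l with
  | nil => simp at ha
  | cons b l ih =>
    rw [mw_cons]
    rcases List.mem_cons.1 ha with h1 | h1
    · rw [← h1, h, map_zero, zero_mul]
    · rw [ih h1, mul_zero]

lemma mw_eq_ιMulti {R : Type*} [CommRing R] {M : Type*} [AddCommGroup M] [Module R M] {α : Type*}
    (g : α → M) (l : List α) : mw (R := R) g l = ιMulti R l.length (fun i => g (l.get i)) := by
  rw [ιMulti_apply, mw]
  congr 1
  rw [← List.ofFn_get (l.map (fun a => ι R (g a)))]
  apply List.ext_get
  · simp
  · intro i h1 h2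
    simp

/-- the functional at its own basis element -/
lemma FL_mw_self {d : ℕ} (L : List (Mon n d)) (hL : L.Nodup) : FL k L (mw (gg k) L) = 1 := by
  rw [FL_apply, map_mw, mw_eq_ιMulti, top_ιMulti]
  have : Matrix.of (fun i => Pr k L (gg k (L.get i))) = (1 : Matrix _ _ (Ring k n)) := by
    ext i j
    rw [Matrix.of_apply, Pr_gg_get k L hL, Matrix.one_apply]
    by_cases h : i = j
    · rw [if_pos h, if_pos h.symm]
    · rw [if_neg h, if_neg (Ne.symm h)]
  rw [this, Matrix.det_one]

/-- the functional on a product of forms -/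
lemma FL_ιMulti {d : ℕ} (L : List (Mon n d)) (s : Fin L.length → Form k n (d : ℤ)) :
    FL k L (ιMulti (Ring k n) L.length (fun i => (1 ⊗ₜ[k] s i : Mod k n d)))
      = C (Matrix.det (Matrix.of fun i a => coeff (L.get a).1 (s i : Ring k n))) := by
  rw [FL_apply, map_apply_ιMulti, top_ιMulti]
  rw [RingHom.map_det (C : k →+* Ring k n)]
  congr 1
  ext i a : 2
  rw [Matrix.of_apply, Function.comp_apply, Pr_apply]
  rfl

lemma coeff_mul_form {d : ℕ} (L : List (Mon n d)) (hL : L.Nodup) (f : Fin (n + 1) →₀ ℕ)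
    (hf : ∀ u : Mon n d, u.1 ≤ f → u ∈ L) (h : Ring k n) (s : Form k n (d : ℤ)) :
    coeff f (h * (s : Ring k n)) = ∑ a : Fin L.length,
      coeff (L.get a).1 (s : Ring k n) * (if (L.get a).1 ≤ f then coeff (f - (L.get a).1) h else 0) := by
  classical
  rw [coeff_mul]
  symm
  refine Finset.sum_bij_ne_zero (fun a _ _ => (f - (L.get a).1, (L.get a).1)) ?_ ?_ ?_ ?_
  · intro a _ ha
    rw [Finset.HasAntidiagonal.mem_antidiagonal]
    have : (L.get a).1 ≤ f := by
      by_contra hc
      rw [if_neg hc, mul_zero] at ha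
      exact ha rfl
    exact tsub_add_cancel_of_le this
  · intro a _ _ b _ _ hab
    have h2 : (L.get a).1 = (L.get b).1 := (Prod.ext_iff.1 hab).2
    exact (List.nodup_iff_injective_get.1 hL) (Subtype.ext h2)
  · rintro ⟨v, w⟩ hx hne
    rw [Finset.HasAntidiagonal.mem_antidiagonal] at hx
    simp only at hx
    have h1 : ∑ i, (w i : ℤ) = d := s.2 w (right_ne_zero_of_mul hne)
    have h2 : ∑ i, w i = d := by exact_mod_cast h1
    have h3 : w ≤ f := by rw [← hx]; exact le_add_self
    obtain ⟨a, ha⟩ := List.mem_iff_get.1 (hf ⟨w, h2⟩ h3)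
    refine ⟨a, Finset.mem_univ _, ?_, ?_⟩
    · rw [ha, if_pos h3]
      have h4 : f - w = v := by rw [← hx]; exact add_tsub_cancel_right v w
      rw [h4, mul_comm]
      exact hne
    · rw [ha]
      have h4 : f - w = v := by rw [← hx]; exact add_tsub_cancel_right v w
      rw [h4]
  · intro a _ ha
    have : (L.get a).1 ≤ f := by
      by_contra hc
      rw [if_neg hc, mul_zero] at ha
      exact ha rfl
    rw [if_pos this, mul_comm]

lemma det_zero {d : ℕ} (L : List (Mon n d)) (hL : L.Nodup) (f : Fin (n + 1) →₀ ℕ)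
    (hf : ∀ u : Mon n d, u.1 ≤ f → u ∈ L) (h : Ring k n) (s : Fin (L.length + 1) → Form k n (d : ℤ)) :
    ∑ j : Fin (L.length + 1), (-1 : k) ^ (j : ℕ) * coeff f (h * (s j : Ring k n)) *
      Matrix.det (Matrix.of fun i a => coeff (L.get a).1 (s (j.succAbove i) : Ring k n)) = 0 := by
  set A : Matrix (Fin (L.length + 1)) (Fin (L.length + 1)) k := Matrix.of fun i =>
    (Fin.cons (coeff f (h * (s i : Ring k n))) (fun a => coeff (L.get a).1 (s i : Ring k n)) :
      Fin (L.length + 1) → k) with hA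
  have h1 : A.det = 0 := by
    rw [← Matrix.exists_mulVec_eq_zero_iff]
    refine ⟨(Fin.cons 1 (fun a => - (if (L.get a).1 ≤ f then coeff (f - (L.get a).1) h else 0)) :
      Fin (L.length + 1) → k), ?_, ?_⟩
    · intro h0
      have := congrFun h0 0
      simp at this
    · funext i
      rw [Matrix.mulVec, dotProduct, Fin.sum_univ_succ]
      simp only [hA, Matrix.of_apply, Fin.cons_zero, Fin.cons_succ, mul_one, Pi.zero_apply, mul_neg]
      rw [coeff_mul_form k L hL f hf h (s i), Finset.sum_neg_distrib]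
      exact add_neg_cancel _
  rw [Matrix.det_succ_column_zero] at h1
  rw [← h1]
  apply Finset.sum_congr rfl
  intro j _
  congr 1

lemma mulMap_one_tmul {d : ℕ} (s : Form k n (d : ℤ)) : mulMap k n d (1 ⊗ₜ s) = (s : Ring k n) := by
  rw [mulMap, LinearMap.liftBaseChange_tmul, one_smul]
  rfl

lemma koszul_apply {d : ℕ} (x : Ext k n d) : koszul k n d x = ctr (mulMap k n d) x := rfl

lemma FL_boundary {d : ℕ} (L : List (Mon n d)) (hL : L.Nodup) (f : Fin (n + 1) →₀ ℕ)
    (hf : ∀ u : Mon n d, u.1 ≤ f → u ∈ L) (e : ℤ) (x : Ext k n d)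
    (hx : x ∈ chain k n d (L.length + 1) e) : coeff f (FL k L (koszul k n d x)) = 0 := by
  refine Submodule.span_induction (p := fun x _ => coeff f (FL k L (koszul k n d x)) = 0)
    ?_ ?_ ?_ ?_ hx
  · rintro _ ⟨g, hg, s, rfl⟩
    rw [koszul_apply, map_smul, ctr_ιMulti, map_smul, map_sum, smul_eq_mul, Finset.mul_sum]
    rw [← det_zero k L hL f hf g s, coeff_sum]
    apply Finset.sum_congr rfl
    intro j _
    rw [map_smul, FL_ιMulti, mulMap_one_tmul, smul_eq_mul]
    have h1 : g * ((-1 : Ring k n) ^ (j : ℕ) * (s j : Ring k n) *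
        C (Matrix.det (Matrix.of fun i a => coeff (L.get a).1 (s (j.succAbove i) : Ring k n))))
        = C ((-1 : k) ^ (j : ℕ) *
          Matrix.det (Matrix.of fun i a => coeff (L.get a).1 (s (j.succAbove i) : Ring k n)))
          * (g * (s j : Ring k n)) := by
      rw [C_mul, C_pow, C_neg, C_1]
      ring
    rw [h1, coeff_C_mul]
    ring
  · rw [map_zero, map_zero, coeff_zero]
  · intro x y _ _ hx hy
    rw [map_add, map_add, coeff_add, hx, hy, add_zero]
  · intro a x _ hx
    rw [map_smul]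
    have : FL k L (a • koszul k n d x) = (C a : Ring k n) * FL k L (koszul k n d x) := by
      have h := (FL k L).map_smul (C a : Ring k n) (koszul k n d x)
      rw [← smul_eq_mul, ← h]
      congr 1
    rw [this, coeff_C_mul, hx, mul_zero]

end Pool.Agent.H940V
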