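import Pool.Agent.H940V.Count

/-!
The monomial lower bound for Koszul cohomology.
-/

namespace Pool.Agent.H940V

open MvPolynomial TensorProduct ExteriorAlgebra

lemma indep_of_functionals {k : Type*} [Field k] {E : Type*} [AddCommGroup E] [Module k E]
    (Z B : Submodule k E) {ι : Type*} (z : ι → Z) (Φ : ι → E →ₗ[k] k)
    (hB : ∀ i, ∀ x ∈ B, Φ i x = 0) (h1 : ∀ i, Φ i (z i : E) = 1)
    (h0 : ∀ i j, i ≠ j → Φ i (z j : E) = 0) :
    LinearIndependent k (fun i => (B.submoduleOf Z).mkQ (z i)) := by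
  classical
  rw [linearIndependent_iff']
  intro s g hg i hi
  have h2 : (B.submoduleOf Z).mkQ (∑ j ∈ s, g j • z j) = 0 := by
    rw [map_sum]
    simpa using hg
  rw [Submodule.mkQ_apply, Submodule.Quotient.mk_eq_zero] at h2
  have h3 := hB i _ (show ((∑ j ∈ s, g j • z j : Z) : E) ∈ B from h2)
  rw [Submodule.coe_sum, map_sum, Finset.sum_eq_single i] at h3
  · rw [Submodule.coe_smul, map_smul, h1, smul_eq_mul, mul_one] at h3
    exact h3
  · intro j _ hj
    rw [Submodule.coe_smul, map_smul, h0 i j (Ne.symm hj), smul_zero]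
  · intro h; exact absurd hi h

/-- **Monomial criterion.** -/
theorem rank_ge (k : Type*) [Field k] (n b d p q : ℕ) (f : Fin (n + 1) →₀ ℕ)
    (hsum : ∑ i, f i = q * d + b) (hf : ∀ j, f j < d) (F : Finset (Finset (Mon n d)))
    (hcard : ∀ I ∈ F, I.card = p) (hD : ∀ I ∈ F, ∀ u : Mon n d, u.1 ≤ f → u ∈ I)
    (hA : ∀ I ∈ F, ∀ u ∈ I, ∃ j, d ≤ f j + u.1 j)
    (hP : ∀ I ∈ F, ∀ u ∈ I, ∀ j, u.1 ≠ Finsupp.single j d) :
    (F.card : Cardinal) ≤ Module.rank k (KK k n b d p q) := by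
  classical
  set gr : Mon n d → Fin (n + 1) := fun u =>
    if h : ∃ j, d ≤ f j + u.1 j then h.choose else 0 with hgr
  have hgr2 : ∀ I ∈ F, ∀ u ∈ I, d ≤ f (gr u) + u.1 (gr u) := by
    intro I hI u hu
    have h := hA I hI u hu
    simp only [hgr, dif_pos h]
    exact h.choose_spec
  have hf' : ∀ j, f j ≤ d := fun j => (hf j).le
  have hpure : ∀ I ∈ F, ∀ j, pure n d j ∉ I := fun I hI j hj => hP I hI _ hj j rfl
  have hz : ∀ I : F, zI k f I.1 gr ∈ cyc k n b d p q := by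
    intro I
    refine ⟨?_, ?_⟩
    · have h := zI_chain k f I.1 gr hf'
      have h2 : (∑ i, (f i : ℤ)) = (q : ℤ) * d + b := by exact_mod_cast hsum
      rw [hcard I.1 I.2, h2] at h
      exact h
    · rw [SetLike.mem_coe, LinearMap.mem_ker]
      exact zI_cycle k f I.1 gr hf' (hgr2 I.1 I.2)
  have hli := indep_of_functionals (k := k) (cyc k n b d p q) (bdy k n b d p q)
    (fun I : F => (⟨zI k f I.1 gr, hz I⟩ : cyc k n b d p q))
    (fun I : F => (MvPolynomial.lcoeff k f) ∘ₗ (FL k (Lt I.1 gr)).restrictScalars k) ?_ ?_ ?_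
  · have h := hli.cardinal_lift_le_rank
    simpa using h
  · intro I x hx
    rw [bdy, Submodule.mem_map] at hx
    obtain ⟨y, hy, rfl⟩ := hx
    have h := FL_boundary k (Lt I.1 gr) (Lt_nodup I.1 gr) f
      (fun u hu => (mem_Lt I.1 gr u).2 (hD I.1 I.2 u hu)) (((q : ℤ) - 1) * d + b) y
      (by rw [Lt_length, hcard I.1 I.2]; exact hy)
    exact h
  · intro I
    change coeff f (FL k (Lt I.1 gr) (zI k f I.1 gr)) = 1
    rw [FL_zI_self k f I.1 gr (hpure I.1 I.2), coeff_monomial, if_pos rfl]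
  · intro I J hIJ
    change coeff f (FL k (Lt I.1 gr) (zI k f J.1 gr)) = 0
    have hne : ∃ u ∈ J.1, u ∉ I.1 := by
      by_contra hc
      push Not at hc
      have h1 : J.1 ⊆ I.1 := hc
      have h2 : J.1 = I.1 :=
        Finset.eq_of_subset_of_card_le h1 (by rw [hcard I.1 I.2, hcard J.1 J.2])
      exact hIJ (Subtype.ext h2.symm)
    obtain ⟨u, hu, hu'⟩ := hne
    rw [FL_zI_ne k f J.1 gr (Lt I.1 gr)
      (fun j h => hpure I.1 I.2 j ((mem_Lt I.1 gr _).1 h)) u hu
      (fun h => hu' ((mem_Lt I.1 gr u).1 h)), coeff_zero]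

lemma D_sub_A {n b d q : ℕ} (hq : q ≤ n) (hd : b + q + 1 ≤ d) (u : Mon n d)
    (hu : u.1 ≤ f0 n b d q) : (∃ j, d ≤ f0 n b d q j + u.1 j) ∧
      ∀ j, u.1 ≠ Finsupp.single j d := by
  refine ⟨?_, ?_⟩
  · by_contra hc
    push Not at hc
    -- then the exponent vanishes below q, so the degree is at most q + b < d
    set jq : Fin (n + 1) := ⟨q, by omega⟩ with hjq
    have h3 : ∀ i, i ≠ jq → u.1 i = 0 := by
      intro i hi
      have h4 := hc i
      have h5 := hu i
      rw [f0_apply] at h4 h5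
      have h6 : i.val ≠ q := fun h => hi (Fin.ext h)
      split_ifs at h4 h5 with h7
      · omega
      · omega
    have h4 : ∑ i, u.1 i = u.1 jq := Finset.sum_eq_single jq (fun i _ hi => h3 i hi)
      (fun h => absurd (Finset.mem_univ _) h)
    have h5 := u.2
    have h6 := hu jq
    rw [f0_apply, if_neg (by simp [hjq]), if_pos (by simp [hjq])] at h6
    omega
  · intro j hj
    have h3 := hu j
    rw [hj, Finsupp.single_apply, if_pos rfl] at h3
    have := f0_lt (n := n) hd j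
    omega

/-- Counting form of the monomial criterion: all `I` with `D ⊆ I ⊆ A`. -/
theorem rank_ge' (k : Type*) [Field k] (n b d p q : ℕ) (f : Fin (n + 1) →₀ ℕ)
    (hsum : ∑ i, f i = q * d + b) (hf : ∀ j, f j < d) (D A : Finset (Mon n d))
    (hD : ∀ u : Mon n d, u.1 ≤ f → u ∈ D)
    (hA : ∀ u ∈ A, (∃ j, d ≤ f j + u.1 j) ∧ ∀ j, u.1 ≠ Finsupp.single j d)
    (hDA : D ⊆ A) (hp1 : D.card ≤ p) :
    (((A.card - D.card).choose (p - D.card) : ℕ) : Cardinal) ≤ Module.rank k (KK k n b d p q) := by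
  classical
  obtain ⟨F, hFcard, hmemF⟩ : ∃ F : Finset (Finset (Mon n d)),
      F.card = (A.card - D.card).choose (p - D.card) ∧
      ∀ I ∈ F, ∃ T ⊆ A \ D, T.card = p - D.card ∧ I = D ∪ T := by
    refine ⟨(Finset.powersetCard (p - D.card) (A \ D)).image (fun T => D ∪ T), ?_, ?_⟩
    · rw [Finset.card_image_of_injOn, Finset.card_powersetCard, Finset.card_sdiff_of_subset hDA]
      intro T hT T' hT' h
      rw [Finset.mem_coe, Finset.mem_powersetCard] at hT hT'
      have h3 : D ∪ T = D ∪ T' := h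
      have h4 : ∀ S : Finset (Mon n d), S ⊆ A \ D → (D ∪ S) \ D = S := by
        intro S hS
        rw [Finset.union_sdiff_left, Finset.sdiff_eq_self_iff_disjoint]
        exact Finset.disjoint_of_subset_left hS Finset.sdiff_disjoint
      rw [← h4 T hT.1, ← h4 T' hT'.1, h3]
    · intro I hI
      rw [Finset.mem_image] at hI
      obtain ⟨T, hT, rfl⟩ := hI
      rw [Finset.mem_powersetCard] at hT
      exact ⟨T, hT.1, hT.2, rfl⟩
  have hIA : ∀ I ∈ F, I ⊆ A := by
    intro I hI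
    obtain ⟨T, hT, _, rfl⟩ := hmemF I hI
    exact Finset.union_subset hDA (hT.trans Finset.sdiff_subset)
  have hmain := rank_ge k n b d p q f hsum hf F ?_ ?_ ?_ ?_
  · rw [hFcard] at hmain
    exact hmain
  · intro I hI
    obtain ⟨T, hT, hT2, rfl⟩ := hmemF I hI
    rw [Finset.card_union_of_disjoint, hT2]
    · omega
    · exact (Finset.disjoint_of_subset_left hT Finset.sdiff_disjoint).symm
  · intro I hI u hu
    obtain ⟨T, hT, hT2, rfl⟩ := hmemF I hI
    exact Finset.mem_union_left _ (hD u hu)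
  · intro I hI u hu
    exact (hA u (hIA I hI hu)).1
  · intro I hI u hu
    exact (hA u (hIA I hI hu)).2

theorem main (k : Type*) [Field k] (n b d q p : ℕ) (hq1 : 1 ≤ q) (hq : q ≤ n)
    (hd : b + q + 1 ≤ d) (h1 : lam b d q ≤ p) (h2 : (p : ℤ) ≤ mu n b d q) :
    (((mu n b d q - lam b d q).toNat.choose (p - lam b d q).toNat : ℕ) : Cardinal)
      ≤ Module.rank k (KK k n b d p q) ∧
    1 ≤ (mu n b d q - lam b d q).toNat.choose (p - lam b d q).toNat := by
  obtain ⟨D, hDm, hcD⟩ : ∃ D : Finset (Mon n d), (∀ u : Mon n d, u ∈ D ↔ u.1 ≤ f0 n b d q) ∧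
      (D.card : ℤ) = lam b d q :=
    ⟨_, fun u => by rw [Finset.mem_filter]; exact and_iff_right (Finset.mem_univ _),
      card_D hq1 hq hd⟩
  obtain ⟨A, hAm, hcA⟩ : ∃ A : Finset (Mon n d), (∀ u : Mon n d, u ∈ A ↔
      ((∃ j, d ≤ f0 n b d q j + u.1 j) ∧ ∀ j, u.1 ≠ Finsupp.single j d)) ∧
      (A.card : ℤ) = mu n b d q :=
    ⟨_, fun u => by rw [Finset.mem_filter]; exact and_iff_right (Finset.mem_univ _),
      card_A hq1 hq hd⟩
  have hDA : D ⊆ A := fun u hu => (hAm u).2 (D_sub_A hq hd u ((hDm u).1 hu))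
  have hp1 : D.card ≤ p := by rw [← hcD] at h1; exact_mod_cast h1
  have hp2 : p ≤ A.card := by rw [← hcA] at h2; exact_mod_cast h2
  have h5 : (mu n b d q - lam b d q).toNat = A.card - D.card := by
    rw [← hcD, ← hcA]; omega
  have h6 : ((p : ℤ) - lam b d q).toNat = p - D.card := by
    rw [← hcD]; omega
  rw [h5, h6]
  refine ⟨rank_ge' k n b d p q (f0 n b d q) (sum_f0 hq hd) (f0_lt hd) D A
    (fun u hu => (hDm u).2 hu) (fun u hu => (hAm u).1 hu) hDA hp1, ?_⟩
  exact Nat.succ_le_of_lt (Nat.choose_pos (by omega))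

/-- Nonvanishing. -/
theorem main' (k : Type*) [Field k] (n b d q p : ℕ) (hq1 : 1 ≤ q) (hq : q ≤ n)
    (hd : b + q + 1 ≤ d) (h1 : lam b d q ≤ p) (h2 : (p : ℤ) ≤ mu n b d q) :
    Nontrivial (KK k n b d p q) := by
  obtain ⟨h, h'⟩ := main k n b d q p hq1 hq hd h1 h2
  rw [← rank_pos_iff_nontrivial (R := k)]
  have h3 : (1 : Cardinal) ≤ (((mu n b d q - lam b d q).toNat.choose (p - lam b d q).toNat : ℕ) :
    Cardinal) := by exact_mod_cast h'
  exact lt_of_lt_of_le (lt_of_lt_of_le zero_lt_one h3) h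

end Pool.Agent.H940V
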